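import Mathlib
import Pool.Agent.H705R2.ABC.Defs

/-!
# Exceptions to the strong n-conjecture: statements of the modules (helper625)

Project NC.  `rad`, `rd`, `part`, `num`, `cost`, `Poly` are those of `H785R2.ABC.Defs`, `side`,
`StmtNum`, ... those of `H705R2.ABC.Defs`.  An `HCell` is the analogue of the `Cell` there for
triples of pairwise coprime positive integers up to `Z` on a fixed affine plane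
`σ₀ a + σ₁ b + σ₂ c = h` (`h` any integer, `σ` signs); `Z` replaces `s.2.2`.
-/

namespace Pool.Agent.W625.NC

open Finset Pool.Agent.H785R2.ABC Pool.Agent.H705R2.ABC

/-- a triple on the affine plane -/
structure HTri (σ : Fin 3 → ℤ) (h : ℤ) (Z : ℕ) (s : ℕ × ℕ × ℕ) : Prop where
  pos : ∀ j, 1 ≤ num s j
  le : ∀ j, num s j ≤ Z
  cop : ∀ i j, i ≠ j → Nat.Coprime (num s i) (num s j)
  lin : σ 0 * (num s 0 : ℤ) + σ 1 * (num s 1 : ℤ) + σ 2 * (num s 2 : ℤ) = h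

/-- a cell -/
structure HCell (K : ℕ) (σ : Fin 3 → ℤ) (h : ℤ) (Z : ℕ) (T : Finset (ℕ × ℕ × ℕ)) : Prop where
  sgn : ∀ j, σ j = 1 ∨ σ j = -1
  tri : ∀ s ∈ T, HTri σ h Z s
  rd_le : ∀ s ∈ T, ∀ s' ∈ T, ∀ j S, rd K (num s j) S ≤ 2 ^ (K + 1) * rd K (num s' j) S
  part_le : ∀ s ∈ T, ∀ s' ∈ T, ∀ j S, part K (num s j) S ≤ 2 ^ (K + 1) * part K (num s' j) S

/-- EST for `HCell` -/
def HEst : Prop :=
  ∀ K : ℕ, ∀ ε : ℝ, 0 < ε → ∃ D : ℝ, 0 < D ∧ ∀ (σ : Fin 3 → ℤ) (h : ℤ) (Z : ℕ)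
    (T : Finset (ℕ × ℕ × ℕ)), HCell K σ h Z T → ∀ s ∈ T,
    ∀ p q r : Fin 3, p ≠ q → q ≠ r → p ≠ r → ∀ F : Finset (Fin (K + 1)),
    (T.card : ℝ) ≤ D * (Z : ℝ) ^ ε * (rd K (num s r) F : ℝ) *
      (side K s r p F * side K s r q F) ^ ((1 : ℝ) / 2)

/-- DC for `HCell` -/
def HDc : Prop :=
  ∀ K : ℕ, ∀ ε : ℝ, 0 < ε → ∃ D : ℝ, 0 < D ∧ ∀ (σ : Fin 3 → ℤ) (h : ℤ) (Z : ℕ)
    (T : Finset (ℕ × ℕ × ℕ)), HCell K σ h Z T → ∀ s ∈ T,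
    ∀ p q r : Fin 3, p ≠ q → q ≠ r → p ≠ r → ∀ i : Fin (K + 1), 1 ≤ (i : ℕ) → (i : ℕ) < K →
    (T.card : ℝ) ≤ D * (Z : ℝ) ^ ε *
      ((rd K (num s p) {i}ᶜ : ℝ) * rd K (num s q) univ +
        ((rd K (num s p) {i}ᶜ : ℝ) * rd K (num s q) univ) ^ ((1 : ℝ) / 2) *
          rd K (num s r) univ)

/-- TR for `HCell` -/
def HTr : Prop :=
  ∀ K : ℕ, ∀ ε : ℝ, 0 < ε → ∃ D : ℝ, 0 < D ∧ ∀ (σ : Fin 3 → ℤ) (h : ℤ) (Z : ℕ)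
    (T : Finset (ℕ × ℕ × ℕ)), HCell K σ h Z T → ∀ s ∈ T,
    ∀ p q : Fin 3, p ≠ q → (T.card : ℝ) ≤ D * (Z : ℝ) ^ ε *
      ((rd K (num s p) univ : ℝ) * rd K (num s q) univ)

/-- bound for all cells: members `1`, `2` are `≥ Z / m`, the product of the radicals is
`≤ Z ^ (9/10)` -/
def HCells : Prop :=
  ∀ ε : ℝ, 0 < ε → ∀ m : ℕ, 1 ≤ m → ∃ (K : ℕ) (D : ℝ), 0 < D ∧ ∀ (σ : Fin 3 → ℤ) (h : ℤ) (Z : ℕ)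
    (T : Finset (ℕ × ℕ × ℕ)), HCell K σ h Z T → ∀ s ∈ T,
    Z ≤ m * num s 1 → Z ≤ m * num s 2 →
    ((rad (num s 0) * rad (num s 1) * rad (num s 2) : ℕ) : ℝ) ≤ (Z : ℝ) ^ ((9 : ℝ) / 10) →
    (T.card : ℝ) ≤ D * (Z : ℝ) ^ ε *
      ((rad (num s 0) * rad (num s 1) * rad (num s 2) : ℕ) : ℝ) ^ ((4 : ℝ) / 7)

/-- count of the triples on the plane with product of the radicals `≤ R` -/
def HCount : Prop :=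
  ∀ ε : ℝ, 0 < ε → ∀ m : ℕ, 1 ≤ m → ∃ C : ℝ, 0 < C ∧ ∀ (σ : Fin 3 → ℤ),
    (∀ j, σ j = 1 ∨ σ j = -1) → ∀ (h : ℤ) (Z : ℕ) (R : ℝ) (T : Finset (ℕ × ℕ × ℕ)), 1 ≤ Z → 0 ≤ R →
    (∀ s ∈ T, HTri σ h Z s ∧ Z ≤ m * num s 1 ∧ Z ≤ m * num s 2 ∧
      ((rad (num s 0) * rad (num s 1) * rad (num s 2) : ℕ) : ℝ) ≤ (Z : ℝ) ^ ((9 : ℝ) / 10) ∧
      ((rad (num s 0) * rad (num s 1) * rad (num s 2) : ℕ) : ℝ) ≤ R) →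
    (T.card : ℝ) ≤ C * (Z : ℝ) ^ ε * R ^ ((4 : ℝ) / 7)

/-- admissible tuples up to `X` (as in the problem) -/
def Adm (n : ℕ) (X : ℕ) (x : Fin n → ℤ) : Prop :=
  (∀ i, x i ≠ 0) ∧ (∀ i j, i ≠ j → Int.gcd (x i) (x j) = 1) ∧ ∑ i, x i = 0 ∧ ∀ i, |x i| ≤ (X : ℤ)

/-- lower bound for the number of admissible tuples (optional) -/
def Low : Prop :=
  ∀ n : ℕ, 3 ≤ n → ∃ c : ℝ, 0 < c ∧ ∃ X₀ : ℕ, ∀ X : ℕ, X₀ ≤ X →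
    c * (X : ℝ) ^ ((n : ℝ) - 1) ≤ ({x : Fin n → ℤ | Adm n X x}.ncard : ℝ)

end Pool.Agent.W625.NC
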