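import Mathlib
import Pool.Agent.W625.NC.Stm

/-!
# Exceptions to the strong n-conjecture: one dyadic box (helper625)
-/

set_option autoImplicit false

namespace Pool.Agent.W625.NC

open Finset Pool.Agent.H785R2.ABC Pool.Agent.H705R2.ABC

namespace Box

theorem rad_mul_coprime {a b : ℕ} (h : Nat.Coprime a b) : rad (a * b) = rad a * rad b := by
  unfold rad
  rw [h.primeFactors_mul, Finset.prod_union h.disjoint_primeFactors]

theorem rad_pos (n : ℕ) : 0 < rad n :=
  Finset.prod_pos fun _ hp => (Nat.prime_of_mem_primeFactors hp).pos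

theorem rad_prod {ι : Type*} [DecidableEq ι] (S : Finset ι) (a : ι → ℕ)
    (h : ∀ i ∈ S, ∀ j ∈ S, i ≠ j → Nat.Coprime (a i) (a j)) :
    rad (∏ i ∈ S, a i) = ∏ i ∈ S, rad (a i) := by
  induction S using Finset.induction_on with
  | empty => simp [rad]
  | insert i S hi ih =>
    rw [Finset.prod_insert hi, Finset.prod_insert hi, rad_mul_coprime, ih]
    · intro j hj k hk hjk
      exact h j (mem_insert_of_mem hj) k (mem_insert_of_mem hk) hjk
    · apply Nat.Coprime.prod_right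
      intro j hj
      exact h i (mem_insert_self _ _) j (mem_insert_of_mem hj) (fun e => hi (e ▸ hj))

/-- conditions on the members of a box -/
structure Mem {n : ℕ} (X : ℕ) (x0 x : Fin n → ℤ) : Prop where
  ne : ∀ i, x i ≠ 0
  cop : ∀ i j, i ≠ j → Nat.Coprime (x i).natAbs (x j).natAbs
  sum : ∑ i, x i = 0
  le : ∀ i, (x i).natAbs ≤ X
  rad_le : ∀ i, rad (x i).natAbs ≤ 2 * rad (x0 i).natAbs

/-- nonzero integers with bounded radical -/
noncomputable def B (X : ℕ) (R : ℕ) : Finset ℤ :=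
  (Icc (-(X : ℤ)) X).filter fun z => z ≠ 0 ∧ rad z.natAbs ≤ R

theorem B_card {D e : ℝ} (X : ℕ) (hX : 1 ≤ X)
    (h4 : ∀ X : ℕ, 1 ≤ X → ∀ R : ℝ, 0 ≤ R →
      (((Icc 1 X).filter fun d => (rad d : ℝ) ≤ R).card : ℝ) ≤ D * (X : ℝ) ^ e * R) (R : ℕ) :
    ((B X R).card : ℝ) ≤ 2 * (D * (X : ℝ) ^ e * R) := by
  classical
  set A : Finset ℕ := (Icc 1 X).filter fun d => (rad d : ℝ) ≤ (R : ℝ) with hA
  have hsub : B X R ⊆ A.image (fun d : ℕ => (d : ℤ)) ∪ A.image (fun d : ℕ => -(d : ℤ)) := by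
    intro z hz
    unfold B at hz
    rw [mem_filter, mem_Icc] at hz
    obtain ⟨⟨h1, h2⟩, h3, h5⟩ := hz
    have hm : z.natAbs ∈ A := by
      rw [hA, mem_filter, mem_Icc]
      exact ⟨⟨by omega, by omega⟩, by exact_mod_cast h5⟩
    rw [mem_union]
    rcases Int.natAbs_eq z with h | h
    · left; exact mem_image.2 ⟨_, hm, h.symm⟩
    · right; exact mem_image.2 ⟨_, hm, h.symm⟩
  have h1 : (B X R).card ≤ A.card + A.card :=
    (card_le_card hsub).trans ((card_union_le _ _).trans (Nat.add_le_add card_image_le card_image_le))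
  have h2 := h4 X hX R (Nat.cast_nonneg _)
  have h3 : ((B X R).card : ℝ) ≤ (A.card : ℝ) + A.card := by exact_mod_cast h1
  linarith

/-- restriction of a tuple to `S` -/
def res {n : ℕ} (S : Finset (Fin n)) (x : Fin n → ℤ) : Fin n → ℤ := fun i => if i ∈ S then x i else 0

theorem img_card {n : ℕ} {D e : ℝ} (X : ℕ) (hX : 1 ≤ X)
    (h4 : ∀ X : ℕ, 1 ≤ X → ∀ R : ℝ, 0 ≤ R →
      (((Icc 1 X).filter fun d => (rad d : ℝ) ≤ R).card : ℝ) ≤ D * (X : ℝ) ^ e * R)
    (x0 : Fin n → ℤ) (T : Finset (Fin n → ℤ)) (hT : ∀ x ∈ T, Mem X x0 x) (S : Finset (Fin n)) :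
    ((T.image (res S)).card : ℝ) ≤ ∏ i ∈ S, (4 * D * (X : ℝ) ^ e * (rad (x0 i).natAbs : ℝ)) := by
  classical
  set V : Fin n → Finset ℤ := fun i => if i ∈ S then B X (2 * rad (x0 i).natAbs) else {0} with hV
  have hsub : T.image (res S) ⊆ Fintype.piFinset V := by
    intro y hy
    obtain ⟨x, hx, rfl⟩ := mem_image.1 hy
    have hm := hT x hx
    rw [Fintype.mem_piFinset]
    intro i
    simp only [hV, res]
    split_ifs with h
    · unfold B
      rw [mem_filter, mem_Icc]
      have := hm.le i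
      exact ⟨⟨by omega, by omega⟩, hm.ne i, hm.rad_le i⟩
    · simp
  have h1 : ((T.image (res S)).card : ℝ) ≤ ((Fintype.piFinset V).card : ℝ) := by
    exact_mod_cast card_le_card hsub
  refine h1.trans ?_
  rw [Fintype.card_piFinset]
  push_cast
  have h2 : ∏ i, ((V i).card : ℝ) = ∏ i ∈ S, ((V i).card : ℝ) := by
    symm
    apply prod_subset (subset_univ S)
    intro i _ hi
    simp [hV, hi]
  rw [h2]
  apply prod_le_prod
  · intro i _; positivity
  · intro i hi
    have h3 : V i = B X (2 * rad (x0 i).natAbs) := by simp [hV, hi]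
    rw [h3]
    have h5 := B_card X hX h4 (2 * rad (x0 i).natAbs)
    push_cast at h5
    linarith

theorem fibA {n : ℕ} {D e : ℝ} (X : ℕ) (hX : 1 ≤ X)
    (h4 : ∀ X : ℕ, 1 ≤ X → ∀ R : ℝ, 0 ≤ R →
      (((Icc 1 X).filter fun d => (rad d : ℝ) ≤ R).card : ℝ) ≤ D * (X : ℝ) ^ e * R)
    (x0 : Fin n → ℤ) (T : Finset (Fin n → ℤ)) (hT : ∀ x ∈ T, Mem X x0 x) (j : Fin n) :
    (T.card : ℝ) ≤ ∏ i ∈ univ.erase j, (4 * D * (X : ℝ) ^ e * (rad (x0 i).natAbs : ℝ)) := by
  classical
  rw [← card_image_of_injOn (s := T) (f := res (univ.erase j))]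
  · exact img_card X hX h4 x0 T hT _
  · intro x hx y hy hxy
    have hx' := (hT x hx).sum
    have hy' := (hT y hy).sum
    have hoff : ∀ i, i ≠ j → x i = y i := by
      intro i hi
      have := congrFun hxy i
      simpa [res, hi] using this
    have e1 : ∑ i ∈ univ.erase j, x i = ∑ i ∈ univ.erase j, y i :=
      sum_congr rfl fun i hi => hoff i (mem_erase.1 hi).1
    rw [← add_sum_erase univ x (mem_univ j)] at hx'
    rw [← add_sum_erase univ y (mem_univ j)] at hy'
    funext i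
    by_cases hi : i = j
    · subst hi; omega
    · exact hoff i hi

theorem fibB (hC : HCount) {n : ℕ} (hn : 3 ≤ n) {D e : ℝ} (he : 0 < e)
    (h4 : ∀ X : ℕ, 1 ≤ X → ∀ R : ℝ, 0 ≤ R →
      (((Icc 1 X).filter fun d => (rad d : ℝ) ≤ R).card : ℝ) ≤ D * (X : ℝ) ^ e * R) :
    ∃ C : ℝ, 0 < C ∧ ∀ (X : ℕ) (_ : 1 ≤ X) (x0 : Fin n → ℤ) (T : Finset (Fin n → ℤ))
      (_ : ∀ x ∈ T, Mem X x0 x) (p q r : Fin n) (_ : p ≠ q) (_ : q ≠ r) (_ : p ≠ r)
      (σ : Fin n → ℤ) (_ : ∀ i, σ i = 1 ∨ σ i = -1) (_ : ∀ x ∈ T, ∀ i, x i = σ i * (x i).natAbs)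
      (Z : ℕ) (_ : 1 ≤ Z) (_ : ∀ x ∈ T, (∀ i, (x i).natAbs ≤ Z) ∧ Z ≤ 2 * n * (x p).natAbs ∧
        Z ≤ 2 * n * (x q).natAbs ∧
        ((rad (x r).natAbs * rad (x p).natAbs * rad (x q).natAbs : ℕ) : ℝ) ≤
          (Z : ℝ) ^ ((9 : ℝ) / 10)),
      (T.card : ℝ) ≤ (∏ i ∈ ((univ.erase p).erase q).erase r,
          (4 * D * (X : ℝ) ^ e * (rad (x0 i).natAbs : ℝ))) *
        (C * (Z : ℝ) ^ e * (8 * ((rad (x0 r).natAbs : ℝ) * rad (x0 p).natAbs * rad (x0 q).natAbs)) ^
          ((4 : ℝ) / 7)) := by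
  classical
  obtain ⟨C, hC0, hC⟩ := hC e he (2 * n) (by omega)
  refine ⟨C, hC0, ?_⟩
  intro X hX x0 T hT p q r hpq hqr hpr σ hσ hsgn Z hZ hTZ
  set S : Finset (Fin n) := ((univ.erase p).erase q).erase r with hS
  have hSmem : ∀ i, i ∈ S ↔ i ≠ r ∧ i ≠ q ∧ i ≠ p := by
    intro i; simp [hS]
  have hsplit : ∀ x : Fin n → ℤ, ∑ i, x i = x p + (x q + (x r + ∑ i ∈ S, x i)) := by
    intro x
    rw [← add_sum_erase univ x (mem_univ p), ← add_sum_erase (univ.erase p) x
      (mem_erase.2 ⟨hpq.symm, mem_univ q⟩), ← add_sum_erase ((univ.erase p).erase q) x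
      (mem_erase.2 ⟨hqr.symm, mem_erase.2 ⟨hpr.symm, mem_univ r⟩⟩)]
  set R : ℝ := 8 * ((rad (x0 r).natAbs : ℝ) * rad (x0 p).natAbs * rad (x0 q).natAbs) with hR
  have hR0 : 0 ≤ R := by rw [hR]; positivity
  have hcard : T.card = ∑ y ∈ T.image (res S), (T.filter fun x => res S x = y).card :=
    card_eq_sum_card_image _ T
  have hfib : ∀ y ∈ T.image (res S), ((T.filter fun x => res S x = y).card : ℝ) ≤
      C * (Z : ℝ) ^ e * R ^ ((4 : ℝ) / 7) := by
    intro y _
    set Ty := T.filter fun x => res S x = y with hTy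
    have hTym : ∀ x ∈ Ty, x ∈ T ∧ res S x = y := by
      intro x hx; rw [hTy, mem_filter] at hx; exact hx
    set G : (Fin n → ℤ) → ℕ × ℕ × ℕ := fun x => ((x r).natAbs, (x p).natAbs, (x q).natAbs) with hG
    have hinj : Set.InjOn G Ty := by
      intro x hx x' hx' hxx
      obtain ⟨hxT, hxy⟩ := hTym x hx
      obtain ⟨hxT', hxy'⟩ := hTym x' hx'
      simp only [hG, Prod.mk.injEq] at hxx
      funext i
      by_cases h1 : i = r
      · subst h1; rw [hsgn x hxT i, hsgn x' hxT' i, hxx.1]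
      by_cases h2 : i = p
      · subst h2; rw [hsgn x hxT i, hsgn x' hxT' i, hxx.2.1]
      by_cases h3 : i = q
      · subst h3; rw [hsgn x hxT i, hsgn x' hxT' i, hxx.2.2]
      have h5 : i ∈ S := (hSmem i).2 ⟨h1, h3, h2⟩
      have h6 := congrFun (hxy.trans hxy'.symm) i
      simpa [res, h5] using h6
    rw [← card_image_of_injOn hinj]
    refine hC ![σ r, σ p, σ q] ?_ (-∑ i ∈ S, y i) Z R (Ty.image G) hZ hR0 ?_
    · intro j
      fin_cases j
      · exact hσ r
      · exact hσ p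
      · exact hσ q
    · intro s hs
      obtain ⟨x, hx, rfl⟩ := mem_image.1 hs
      obtain ⟨hxT, hxy⟩ := hTym x hx
      have hm := hT x hxT
      obtain ⟨hz1, hz2, hz3, hz4⟩ := hTZ x hxT
      have n0 : num (G x) 0 = (x r).natAbs := by simp [num, hG]
      have n1 : num (G x) 1 = (x p).natAbs := by simp [num, hG]
      have n2 : num (G x) 2 = (x q).natAbs := by simp [num, hG]
      have hyx : ∑ i ∈ S, y i = ∑ i ∈ S, x i := by
        apply sum_congr rfl
        intro i hi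
        have h6 := congrFun hxy i
        simp only [res, hi, if_true] at h6
        exact h6.symm
      refine ⟨⟨?_, ?_, ?_, ?_⟩, ?_, ?_, ?_, ?_⟩
      · intro j
        fin_cases j
        · show 1 ≤ num (G x) 0
          rw [n0]; have := hm.ne r; omega
        · show 1 ≤ num (G x) 1
          rw [n1]; have := hm.ne p; omega
        · show 1 ≤ num (G x) 2
          rw [n2]; have := hm.ne q; omega
      · intro j
        fin_cases j
        · show num (G x) 0 ≤ Z
          rw [n0]; exact hz1 r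
        · show num (G x) 1 ≤ Z
          rw [n1]; exact hz1 p
        · show num (G x) 2 ≤ Z
          rw [n2]; exact hz1 q
      · intro i j hij
        fin_cases i <;> fin_cases j
        · exact absurd rfl hij
        · show Nat.Coprime (num (G x) 0) (num (G x) 1)
          rw [n0, n1]; exact hm.cop r p hpr.symm
        · show Nat.Coprime (num (G x) 0) (num (G x) 2)
          rw [n0, n2]; exact hm.cop r q hqr.symm
        · show Nat.Coprime (num (G x) 1) (num (G x) 0)
          rw [n0, n1]; exact hm.cop p r hpr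
        · exact absurd rfl hij
        · show Nat.Coprime (num (G x) 1) (num (G x) 2)
          rw [n1, n2]; exact hm.cop p q hpq
        · show Nat.Coprime (num (G x) 2) (num (G x) 0)
          rw [n0, n2]; exact hm.cop q r hqr
        · show Nat.Coprime (num (G x) 2) (num (G x) 1)
          rw [n1, n2]; exact hm.cop q p hpq.symm
        · exact absurd rfl hij
      · have h7 := hsplit x
        rw [hm.sum] at h7
        rw [n0, n1, n2, hyx]
        show σ r * ((x r).natAbs : ℤ) + σ p * ((x p).natAbs : ℤ) + σ q * ((x q).natAbs : ℤ) = _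
        rw [← hsgn x hxT r, ← hsgn x hxT p, ← hsgn x hxT q]
        linarith
      · rw [n1]; exact hz2
      · rw [n2]; exact hz3
      · rw [n0, n1, n2]; exact hz4
      · rw [n0, n1, n2, hR]
        push_cast
        have g0 : (rad (x r).natAbs : ℝ) ≤ 2 * rad (x0 r).natAbs := by exact_mod_cast hm.rad_le r
        have g1 : (rad (x p).natAbs : ℝ) ≤ 2 * rad (x0 p).natAbs := by exact_mod_cast hm.rad_le p
        have g2 : (rad (x q).natAbs : ℝ) ≤ 2 * rad (x0 q).natAbs := by exact_mod_cast hm.rad_le q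
        calc (rad (x r).natAbs : ℝ) * rad (x p).natAbs * rad (x q).natAbs
            ≤ (2 * rad (x0 r).natAbs) * (2 * rad (x0 p).natAbs) * (2 * rad (x0 q).natAbs) := by
              gcongr
          _ = _ := by ring
  have h5 := img_card X hX h4 x0 T hT S
  have h6 : 0 ≤ C * (Z : ℝ) ^ e * R ^ ((4 : ℝ) / 7) := by positivity
  calc (T.card : ℝ) = ∑ y ∈ T.image (res S), ((T.filter fun x => res S x = y).card : ℝ) := by
        rw [hcard]; push_cast; rfl
    _ ≤ ∑ _y ∈ T.image (res S), C * (Z : ℝ) ^ e * R ^ ((4 : ℝ) / 7) := sum_le_sum hfib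
    _ = ((T.image (res S)).card : ℝ) * (C * (Z : ℝ) ^ e * R ^ ((4 : ℝ) / 7)) := by
        rw [sum_const, nsmul_eq_mul]
    _ ≤ _ := mul_le_mul_of_nonneg_right h5 h6

end Box

end Pool.Agent.W625.NC
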