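import Mathlib
import Pool.Agent.W625.NC.Box

/-!
# Exceptions to the strong n-conjecture: dyadic decomposition (helper625)
-/

set_option autoImplicit false

namespace Pool.Agent.W625.NC

open Finset Pool.Agent.H785R2.ABC Pool.Agent.H705R2.ABC

/-- the exceptions up to `X` for the exponent `M` -/
def ExcSet (n : ℕ) (M : ℝ) (X : ℕ) : Set (Fin n → ℤ) :=
  {x | Adm n X x ∧ ∃ j, (rad (∏ i, x i).natAbs : ℝ) ^ M < |((x j : ℤ) : ℝ)|}

/-- one box -/
structure BoxData {n : ℕ} (M : ℝ) (X Z : ℕ) (x0 : Fin n → ℤ) (p q : Fin n) (σ : Fin n → ℤ)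
    (T : Finset (Fin n → ℤ)) : Prop where
  mem : ∀ x ∈ T, Box.Mem X x0 x
  pq : p ≠ q
  sgn : ∀ i, σ i = 1 ∨ σ i = -1
  eq : ∀ x ∈ T, ∀ i, x i = σ i * (x i).natAbs
  le : ∀ x ∈ T, ∀ i, (x i).natAbs ≤ Z
  hp : ∀ x ∈ T, Z ≤ 2 * n * (x p).natAbs
  hq : ∀ x ∈ T, Z ≤ 2 * n * (x q).natAbs
  Z1 : 1 ≤ Z
  ZX : Z ≤ 2 * X
  exc : ∀ x ∈ T, ∃ j, (rad (∏ i, x i).natAbs : ℝ) ^ M < |((x j : ℤ) : ℝ)|

theorem two_large {n : ℕ} (hn : 2 ≤ n) (x : Fin n → ℤ) (hs : ∑ i, x i = 0) :
    ∃ p q : Fin n, p ≠ q ∧ (∀ i, (x i).natAbs ≤ (x p).natAbs) ∧ (x p).natAbs ≤ n * (x q).natAbs := by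
  classical
  obtain ⟨p, _, hp⟩ := exists_max_image (univ : Finset (Fin n)) (fun i => (x i).natAbs)
    ⟨⟨0, by omega⟩, mem_univ _⟩
  have hne : (univ.erase p : Finset (Fin n)).Nonempty := by
    rw [← card_pos, card_erase_of_mem (mem_univ p), card_univ, Fintype.card_fin]
    omega
  obtain ⟨q, hq, hq'⟩ := exists_max_image (univ.erase p : Finset (Fin n)) (fun i => (x i).natAbs) hne
  refine ⟨p, q, fun e => (mem_erase.1 hq).1 e.symm, fun i => hp i (mem_univ i), ?_⟩
  rw [← add_sum_erase univ x (mem_univ p)] at hs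
  have h1 : (x p).natAbs = (∑ i ∈ univ.erase p, x i).natAbs := by omega
  rw [h1]
  calc (∑ i ∈ univ.erase p, x i).natAbs ≤ ∑ i ∈ univ.erase p, (x i).natAbs := by
        exact Int.natAbs_sum_le _ _
    _ ≤ ∑ _i ∈ univ.erase p, (x q).natAbs := sum_le_sum fun i hi => hq' i hi
    _ = (n - 1) * (x q).natAbs := by
        rw [sum_const, card_erase_of_mem (mem_univ p), card_univ, Fintype.card_fin, smul_eq_mul]
    _ ≤ n * (x q).natAbs := Nat.mul_le_mul_right _ (by omega)

theorem part_bound {n : ℕ} (hn : 2 ≤ n) (M : ℝ) (X : ℕ) (B : ℝ)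
    (hB : ∀ (Z : ℕ) (x0 : Fin n → ℤ) (p q : Fin n) (σ : Fin n → ℤ) (T : Finset (Fin n → ℤ)),
      BoxData M X Z x0 p q σ T → x0 ∈ T → (T.card : ℝ) ≤ B) (hB0 : 0 ≤ B) :
    ((ExcSet n M X).ncard : ℝ) ≤
      (((Nat.log 2 X + 1 : ℕ) : ℝ) ^ (n + 1) * ((n : ℝ) ^ 2 * 2 ^ n)) * B := by
  classical
  set L := Nat.log 2 X with hL
  set E : Finset (Fin n → ℤ) := (Fintype.piFinset fun _ => Icc (-(X : ℤ)) X).filter
    (fun x => x ∈ ExcSet n M X) with hE
  have hset : ExcSet n M X = (E : Set (Fin n → ℤ)) := by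
    ext x
    rw [hE, coe_filter, Set.mem_ofPred_eq, Fintype.mem_piFinset]
    constructor
    · intro h
      refine ⟨fun i => ?_, h⟩
      have := abs_le.1 (h.1.2.2.2 i)
      exact mem_Icc.2 this
    · exact fun h => h.2
  rw [hset, Set.ncard_coe_finset]
  have hEm : ∀ x ∈ E, x ∈ ExcSet n M X := fun x hx => (mem_filter.1 hx).2
  have hex : ∀ x : Fin n → ℤ, ∃ pq : Fin n × Fin n, x ∈ E → pq.1 ≠ pq.2 ∧
      (∀ i, (x i).natAbs ≤ (x pq.1).natAbs) ∧ (x pq.1).natAbs ≤ n * (x pq.2).natAbs := by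
    intro x
    by_cases hx : x ∈ E
    · obtain ⟨p, q, h⟩ := two_large hn x (hEm x hx).1.2.2.1
      exact ⟨(p, q), fun _ => h⟩
    · exact ⟨(⟨0, by omega⟩, ⟨0, by omega⟩), fun h => absurd h hx⟩
  choose pq hpq using hex
  set key : (Fin n → ℤ) → (Fin (L + 1) × (Fin n × Fin n)) × ((Fin n → Bool) × (Fin n → Fin (L + 1))) :=
    fun x => ((Fin.ofNat (L + 1) (Nat.log 2 (x (pq x).1).natAbs), pq x),
      (fun i => decide (0 < x i), fun i => Fin.ofNat (L + 1) (Nat.log 2 (rad (x i).natAbs)))) with hkey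
  have hle : ∀ x ∈ E, ∀ i, (x i).natAbs ≤ X := by
    intro x hx i
    have := (hEm x hx).1.2.2.2 i
    rw [Int.abs_eq_natAbs] at this
    omega
  have hne : ∀ x ∈ E, ∀ i, x i ≠ 0 := fun x hx i => (hEm x hx).1.1 i
  have hfib : ∀ κ, ((E.filter fun x => key x = κ).card : ℝ) ≤ B := by
    intro κ
    set T := E.filter fun x => key x = κ with hT
    rcases T.eq_empty_or_nonempty with h0 | ⟨x0, hx0⟩
    · rw [h0]; simpa using hB0
    have hTm : ∀ x ∈ T, x ∈ E ∧ key x = key x0 := by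
      intro x hx
      rw [hT, mem_filter] at hx hx0
      exact ⟨hx.1, hx.2.trans hx0.2.symm⟩
    have hx0E := (hTm x0 hx0).1
    set p := (pq x0).1 with hp
    set q := (pq x0).2 with hq
    set k := Nat.log 2 (x0 p).natAbs with hk
    have hfac : ∀ x ∈ T, pq x = pq x0 ∧ Nat.log 2 (x p).natAbs = k ∧
        (∀ i, decide (0 < x i) = decide (0 < x0 i)) ∧
        (∀ i, Nat.log 2 (rad (x i).natAbs) = Nat.log 2 (rad (x0 i).natAbs)) := by
      intro x hx
      obtain ⟨hxE, hkx⟩ := hTm x hx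
      simp only [hkey, Prod.mk.injEq] at hkx
      obtain ⟨⟨h1, h2⟩, h3, h5⟩ := hkx
      have hb : ∀ y ∈ E, ∀ i, Nat.log 2 (y i).natAbs < L + 1 := fun y hy i =>
        Nat.lt_succ_of_le (Nat.log_mono_right (hle y hy i))
      have hb' : ∀ y ∈ E, ∀ i, Nat.log 2 (rad (y i).natAbs) < L + 1 := fun y hy i => by
        have g : 1 ≤ (y i).natAbs := by have := hne y hy i; omega
        exact Nat.lt_succ_of_le (Nat.log_mono_right ((Nat.le_of_dvd g
          (Nat.prod_primeFactors_dvd _)).trans (hle y hy i)))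
      refine ⟨h2, ?_, ?_, ?_⟩
      · have h6 := congrArg Fin.val h1
        simp only [Fin.ofNat] at h6
        rw [Nat.mod_eq_of_lt (hb x hxE _), Nat.mod_eq_of_lt (hb x0 hx0E _), h2] at h6
        exact h6
      · intro i; exact congrFun h3 i
      · intro i
        have h6 := congrArg Fin.val (congrFun h5 i)
        simp only [Fin.ofNat] at h6
        rw [Nat.mod_eq_of_lt (hb' x hxE _), Nat.mod_eq_of_lt (hb' x0 hx0E _)] at h6
        exact h6
    have hpT : ∀ x ∈ T, (∀ i, (x i).natAbs ≤ (x p).natAbs) ∧ (x p).natAbs ≤ n * (x q).natAbs := by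
      intro x hx
      have h1 := (hpq x (hTm x hx).1).2
      rw [(hfac x hx).1] at h1
      exact h1
    have hpos : ∀ x ∈ T, (x p).natAbs ≠ 0 := by
      intro x hx
      have := hne x (hTm x hx).1 p
      omega
    have hlow : ∀ x ∈ T, 2 ^ k ≤ (x p).natAbs := by
      intro x hx
      have h1 := Nat.pow_log_le_self 2 (hpos x hx)
      rwa [(hfac x hx).2.1] at h1
    have hupp : ∀ x ∈ T, (x p).natAbs < 2 ^ (k + 1) := by
      intro x hx
      have h1 := Nat.lt_pow_succ_log_self (b := 2) (by norm_num) (x p).natAbs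
      rwa [(hfac x hx).2.1] at h1
    refine hB (2 ^ (k + 1)) x0 p q (fun i => if 0 < x0 i then 1 else -1) T ?_ hx0
    constructor
    · intro x hx
      have hA := (hEm x (hTm x hx).1).1
      refine ⟨hA.1, hA.2.1, hA.2.2.1, hle x (hTm x hx).1, ?_⟩
      intro i
      have h1 := Nat.lt_pow_succ_log_self (b := 2) (by norm_num) (rad (x i).natAbs)
      have h2 := Nat.pow_log_le_self 2 (x := rad (x0 i).natAbs) (Box.rad_pos _).ne'
      rw [(hfac x hx).2.2.2 i] at h1
      rw [pow_succ] at h1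
      omega
    · exact (hpq x0 hx0E).1
    · intro i
      by_cases h : 0 < x0 i
      · left; simp [h]
      · right; simp [h]
    · intro x hx i
      have h1 := (hfac x hx).2.2.1 i
      have h2 := hne x (hTm x hx).1 i
      have h3 : 0 < x i ↔ 0 < x0 i := by simpa using h1
      by_cases h : 0 < x0 i
      · simp only [h, if_true]
        have := h3.2 h
        omega
      · simp only [h, if_false]
        have : ¬ 0 < x i := fun g => h (h3.1 g)
        omega
    · intro x hx i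
      have := (hpT x hx).1 i
      have := hupp x hx
      omega
    · intro x hx
      have h1 := hlow x hx
      calc 2 ^ (k + 1) = 2 * 2 ^ k := by rw [pow_succ]; ring
        _ ≤ 2 * (x p).natAbs := Nat.mul_le_mul_left 2 h1
        _ = 2 * 1 * (x p).natAbs := by ring
        _ ≤ 2 * n * (x p).natAbs := by
          apply Nat.mul_le_mul_right
          omega
    · intro x hx
      have h1 := hlow x hx
      calc 2 ^ (k + 1) = 2 * 2 ^ k := by rw [pow_succ]; ring
        _ ≤ 2 * (x p).natAbs := Nat.mul_le_mul_left 2 h1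
        _ ≤ 2 * (n * (x q).natAbs) := Nat.mul_le_mul_left 2 (hpT x hx).2
        _ = _ := by ring
    · exact Nat.one_le_two_pow
    · have h1 := hlow x0 hx0
      have h2 := hle x0 hx0E p
      rw [pow_succ]
      omega
    · intro x hx
      exact (hEm x (hTm x hx).1).2
  have hsum := card_eq_sum_card_fiberwise (f := key) (s := E) (t := univ)
    (fun _ _ => mem_coe.2 (mem_univ _))
  rw [hsum]
  push_cast
  calc ∑ κ, ((E.filter fun x => key x = κ).card : ℝ) ≤ ∑ _κ : (Fin (L + 1) × (Fin n × Fin n)) ×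
          ((Fin n → Bool) × (Fin n → Fin (L + 1))), B := sum_le_sum fun κ _ => hfib κ
    _ = _ := by
      rw [sum_const, nsmul_eq_mul, card_univ]
      congr 1
      simp only [Fintype.card_fun, Fintype.card_prod, Fintype.card_fin, Fintype.card_bool]
      push_cast
      ring

end Pool.Agent.W625.NC
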