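import Mathlib
import Pool.Agent.W625.NC.Part

/-!
# Exceptions to the strong n-conjecture: optimisation (helper625)
-/

set_option autoImplicit false

namespace Pool.Agent.W625.NC

open Finset Pool.Agent.H785R2.ABC Pool.Agent.H705R2.ABC

namespace Opt

theorem log_le (X : ℕ) (hX : 1 ≤ X) (η : ℝ) (hη : 0 < η) :
    ((Nat.log 2 X + 1 : ℕ) : ℝ) ≤ (1 + 2 / η) * (X : ℝ) ^ η := by
  have hX' : (1 : ℝ) ≤ X := by exact_mod_cast hX
  have h1 : (1 : ℝ) ≤ (X : ℝ) ^ η := Real.one_le_rpow hX' hη.le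
  have h2 : Real.log X ≤ (X : ℝ) ^ η / η := Real.log_le_rpow_div (by linarith) hη
  have h3 : ((2 ^ Nat.log 2 X : ℕ) : ℝ) ≤ X := by
    exact_mod_cast Nat.pow_log_le_self 2 (by omega)
  have h4 : (Nat.log 2 X : ℝ) * Real.log 2 ≤ Real.log X := by
    rw [← Real.log_pow]
    apply Real.log_le_log (by positivity)
    exact_mod_cast h3
  have h5 : (1 : ℝ) / 2 ≤ Real.log 2 := by
    have := Real.log_two_gt_d9
    linarith
  have h6 : (Nat.log 2 X : ℝ) * (1 / 2) ≤ (X : ℝ) ^ η / η := by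
    refine le_trans ?_ (h4.trans h2)
    exact mul_le_mul_of_nonneg_left h5 (Nat.cast_nonneg _)
  push_cast
  have h7 : (1 + 2 / η) * (X : ℝ) ^ η = (X : ℝ) ^ η + 2 * ((X : ℝ) ^ η / η) := by ring
  rw [h7]
  linarith

variable {n : ℕ}

/-- the radical of entry `i` as a real number -/
noncomputable def rho (x : Fin n → ℤ) (i : Fin n) : ℝ := (rad (x i).natAbs : ℝ)

theorem one_le_rho (x : Fin n → ℤ) (i : Fin n) : 1 ≤ rho x i := by
  unfold rho
  exact_mod_cast Box.rad_pos _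

/-- the product of the radicals -/
noncomputable def PP (x : Fin n → ℤ) : ℝ := ∏ i, rho x i

theorem one_le_PP (x : Fin n → ℤ) : 1 ≤ PP x := by
  unfold PP
  calc (1 : ℝ) = ∏ _i : Fin n, (1 : ℝ) := by simp
    _ ≤ _ := prod_le_prod (fun _ _ => zero_le_one) fun i _ => one_le_rho x i

theorem rad_eq_PP (x : Fin n → ℤ)
    (h : ∀ i j, i ≠ j → Nat.Coprime (x i).natAbs (x j).natAbs) :
    (rad (∏ i, x i).natAbs : ℝ) = PP x := by
  classical
  have h1 : (∏ i, x i).natAbs = ∏ i, (x i).natAbs := by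
    exact map_prod Int.natAbsHom x univ
  rw [h1, Box.rad_prod univ _ (fun i _ j _ hij => h i j hij)]
  unfold PP rho
  push_cast
  rfl

/-- `P ≤ X ^ (1 / M)` -/
theorem PP_le {M : ℝ} (hM : 0 < M) {X : ℕ} {Z : ℕ} {x0 : Fin n → ℤ} {p q : Fin n}
    {σ : Fin n → ℤ} {T : Finset (Fin n → ℤ)} (hb : BoxData M X Z x0 p q σ T) {x : Fin n → ℤ}
    (hx : x ∈ T) {Y : ℕ} (hY : ∀ i, (x i).natAbs ≤ Y) : PP x ≤ (Y : ℝ) ^ (1 / M) := by
  obtain ⟨j, hj⟩ := hb.exc x hx
  rw [rad_eq_PP x (hb.mem x hx).cop] at hj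
  have h1 : |((x j : ℤ) : ℝ)| ≤ Y := by
    have h2 : |((x j : ℤ) : ℝ)| = ((x j).natAbs : ℝ) := by
      rw [Nat.cast_natAbs]; push_cast; rfl
    rw [h2]
    exact_mod_cast hY j
  have h0 : 0 ≤ PP x := by linarith [one_le_PP x]
  have h3 : PP x = (PP x ^ M) ^ (1 / M) := by
    rw [← Real.rpow_mul h0, mul_one_div_cancel hM.ne', Real.rpow_one]
  rw [h3]
  exact Real.rpow_le_rpow (Real.rpow_nonneg h0 _) (by linarith) (by positivity)

theorem prod_const_mul (S : Finset (Fin n)) (A : ℝ) (x : Fin n → ℤ) :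
    ∏ i ∈ S, (A * rho x i) = A ^ S.card * ∏ i ∈ S, rho x i := by
  rw [prod_mul_distrib, prod_const]

/-- trivial bound for a box -/
theorem boxA {D e : ℝ} (hD : 0 < D)
    (h4 : ∀ X : ℕ, 1 ≤ X → ∀ R : ℝ, 0 ≤ R →
      (((Icc 1 X).filter fun d => (rad d : ℝ) ≤ R).card : ℝ) ≤ D * (X : ℝ) ^ e * R)
    {M : ℝ} {X : ℕ} (hX : 1 ≤ X) {Z : ℕ} {x0 : Fin n → ℤ} {p q : Fin n}
    {σ : Fin n → ℤ} {T : Finset (Fin n → ℤ)} (hb : BoxData M X Z x0 p q σ T)
    {j : Fin n} {u : ℝ} (hu : 0 < u) (huj : u ≤ rho x0 j) :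
    (T.card : ℝ) ≤ (4 * D * (X : ℝ) ^ e) ^ (n - 1) * (PP x0 / u) := by
  classical
  have h1 := Box.fibA X hX h4 x0 T hb.mem j
  have hA : 0 ≤ 4 * D * (X : ℝ) ^ e := by positivity
  refine h1.trans ?_
  have h2 := prod_const_mul (univ.erase j) (4 * D * (X : ℝ) ^ e) x0
  unfold rho at h2
  rw [h2, card_erase_of_mem (mem_univ j), card_univ, Fintype.card_fin]
  apply mul_le_mul_of_nonneg_left _ (pow_nonneg hA _)
  have h3 : PP x0 = rho x0 j * ∏ i ∈ univ.erase j, rho x0 i :=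
    (mul_prod_erase univ (rho x0) (mem_univ j)).symm
  rw [h3, le_div_iff₀ hu]
  have h5 : 0 ≤ ∏ i ∈ univ.erase j, rho x0 i :=
    prod_nonneg fun i _ => by linarith [one_le_rho x0 i]
  have h6 : (∏ i ∈ univ.erase j, rho x0 i) * u ≤ (∏ i ∈ univ.erase j, rho x0 i) * rho x0 j :=
    mul_le_mul_of_nonneg_left huj h5
  unfold rho at h6 ⊢
  linarith

/-- splitting of the product -/
theorem PP_split {p q r : Fin n} (hpq : p ≠ q) (hqr : q ≠ r) (hpr : p ≠ r) (x : Fin n → ℤ) :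
    PP x = (rho x r * rho x p * rho x q) * ∏ i ∈ ((univ.erase p).erase q).erase r, rho x i := by
  classical
  unfold PP
  rw [← mul_prod_erase univ (rho x) (mem_univ p), ← mul_prod_erase (univ.erase p) (rho x)
      (mem_erase.2 ⟨hpq.symm, mem_univ q⟩), ← mul_prod_erase ((univ.erase p).erase q) (rho x)
      (mem_erase.2 ⟨hqr.symm, mem_erase.2 ⟨hpr.symm, mem_univ r⟩⟩)]
  ring

theorem card_erase3 {p q r : Fin n} (hpq : p ≠ q) (hqr : q ≠ r) (hpr : p ≠ r) :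
    (((univ.erase p).erase q).erase r).card = n - 3 := by
  classical
  rw [card_erase_of_mem (mem_erase.2 ⟨hqr.symm, mem_erase.2 ⟨hpr.symm, mem_univ r⟩⟩),
    card_erase_of_mem (mem_erase.2 ⟨hpq.symm, mem_univ q⟩), card_erase_of_mem (mem_univ p),
    card_univ, Fintype.card_fin]
  omega

theorem exists_third (hn : 3 ≤ n) (p q : Fin n) : ∃ r : Fin n, q ≠ r ∧ p ≠ r := by
  classical
  have h1 : (({p, q} : Finset (Fin n))ᶜ).Nonempty := by
    rw [← card_pos, card_compl, Fintype.card_fin]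
    have := card_le_two (a := p) (b := q)
    omega
  obtain ⟨r, hr⟩ := h1
  rw [mem_compl, mem_insert, mem_singleton, not_or] at hr
  exact ⟨r, fun e => hr.2 e.symm, fun e => hr.1 e.symm⟩

/-- `PP = u ^ (3 n - 2)`, all radicals `< u ^ 3` : the three radicals have product `≥ u ^ 7` -/
theorem seven {u : ℝ} (hn : 3 ≤ n) (hu : 0 < u) {p q r : Fin n} (hpq : p ≠ q) (hqr : q ≠ r)
    (hpr : p ≠ r) (x : Fin n → ℤ) (hP : PP x = u ^ (3 * n - 2)) (hs : ∀ i, rho x i ≤ u ^ 3) :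
    u ^ 7 ≤ rho x r * rho x p * rho x q := by
  classical
  have h1 := PP_split hpq hqr hpr x
  have h2 : ∏ i ∈ ((univ.erase p).erase q).erase r, rho x i ≤ (u ^ 3) ^ (n - 3) := by
    rw [← card_erase3 hpq hqr hpr, ← prod_const]
    exact prod_le_prod (fun i _ => by linarith [one_le_rho x i]) fun i _ => hs i
  have h3 : 0 ≤ rho x r * rho x p * rho x q := by
    have := one_le_rho x r
    have := one_le_rho x p
    have := one_le_rho x q
    positivity
  rw [hP] at h1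
  have h5 : u ^ (3 * n - 2) = u ^ 7 * (u ^ 3) ^ (n - 3) := by
    rw [← pow_mul, ← pow_add]
    congr 1
    omega
  rw [h5] at h1
  have h6 : u ^ 7 * (u ^ 3) ^ (n - 3) ≤ (rho x r * rho x p * rho x q) * (u ^ 3) ^ (n - 3) := by
    rw [h1]
    exact mul_le_mul_of_nonneg_left h2 h3
  exact le_of_mul_le_mul_right h6 (by positivity)

end Opt

end Pool.Agent.W625.NC
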