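import Mathlib
import Pool.Agent.W625.NC.Opt

/-!
# Exceptions to the strong n-conjecture: final counts (helper625)
-/

set_option autoImplicit false

namespace Pool.Agent.W625.NC

open Finset Pool.Agent.H785R2.ABC Pool.Agent.H705R2.ABC

namespace Opt

/-- a bound for all boxes -/
def BoxBd (n : ℕ) (M θ : ℝ) : Prop :=
  ∀ ε : ℝ, 0 < ε → ∃ C : ℝ, 0 < C ∧ ∀ X : ℕ, 1 ≤ X → ∀ (Z : ℕ) (x0 : Fin n → ℤ) (p q : Fin n)
    (σ : Fin n → ℤ) (T : Finset (Fin n → ℤ)), BoxData M X Z x0 p q σ T → x0 ∈ T →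
    (T.card : ℝ) ≤ C * (X : ℝ) ^ (θ + ε)

theorem count_of_box {n : ℕ} (hn : 2 ≤ n) {M θ : ℝ} (h : BoxBd n M θ) :
    ∀ ε : ℝ, 0 < ε → ∃ C : ℝ, 0 < C ∧ ∀ X : ℕ, 1 ≤ X →
      ((ExcSet n M X).ncard : ℝ) ≤ C * (X : ℝ) ^ (θ + ε) := by
  intro ε hε
  obtain ⟨C, hC, hbox⟩ := h (ε / 2) (by linarith)
  set η : ℝ := ε / 2 / (n + 1) with hη
  have hn0 : (0 : ℝ) < (n : ℝ) + 1 := by positivity
  have hη0 : 0 < η := by rw [hη]; positivity
  have hn2 : (0 : ℝ) < (n : ℝ) ^ 2 * 2 ^ n := by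
    have : (0 : ℝ) < n := by exact_mod_cast (by omega : 0 < n)
    positivity
  refine ⟨(1 + 2 / η) ^ (n + 1) * ((n : ℝ) ^ 2 * 2 ^ n) * C, by positivity, ?_⟩
  intro X hX
  have hXp : (0 : ℝ) < X := by exact_mod_cast hX
  have h1 := part_bound hn M X (C * (X : ℝ) ^ (θ + ε / 2))
    (fun Z x0 p q σ T hb hx => hbox X hX Z x0 p q σ T hb hx) (by positivity)
  refine h1.trans ?_
  have h2 := log_le X hX η hη0
  have h3 : ((Nat.log 2 X + 1 : ℕ) : ℝ) ^ (n + 1) ≤ (1 + 2 / η) ^ (n + 1) * (X : ℝ) ^ (ε / 2) := by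
    calc ((Nat.log 2 X + 1 : ℕ) : ℝ) ^ (n + 1) ≤ ((1 + 2 / η) * (X : ℝ) ^ η) ^ (n + 1) :=
          pow_le_pow_left₀ (Nat.cast_nonneg _) h2 _
      _ = _ := by
          rw [mul_pow, ← Real.rpow_natCast ((X : ℝ) ^ η), ← Real.rpow_mul hXp.le]
          congr 2
          rw [hη]; push_cast; field_simp
  have h5 : (X : ℝ) ^ (θ + ε) = (X : ℝ) ^ (ε / 2) * (X : ℝ) ^ (θ + ε / 2) := by
    rw [← Real.rpow_add hXp]; congr 1; ring
  rw [h5]
  calc ((Nat.log 2 X + 1 : ℕ) : ℝ) ^ (n + 1) * ((n : ℝ) ^ 2 * 2 ^ n) * (C * (X : ℝ) ^ (θ + ε / 2))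
      ≤ ((1 + 2 / η) ^ (n + 1) * (X : ℝ) ^ (ε / 2)) * ((n : ℝ) ^ 2 * 2 ^ n) *
        (C * (X : ℝ) ^ (θ + ε / 2)) := by gcongr
    _ = _ := by ring

theorem root_pow {P : ℝ} (hP : 0 ≤ P) {m : ℕ} (hm : 1 ≤ m) : (P ^ ((1 : ℝ) / m)) ^ m = P := by
  rw [← Real.rpow_natCast, ← Real.rpow_mul hP, one_div_mul_cancel (by positivity), Real.rpow_one]

theorem box_triv (hA4 : StmtA4) {n : ℕ} (hn : 2 ≤ n) {M : ℝ} (hM : 0 < M) :
    BoxBd n M (((n : ℝ) - 1) / (n * M)) := by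
  intro ε hε
  have hn0 : (0 : ℝ) < n := by exact_mod_cast (by omega : 0 < n)
  obtain ⟨D, hD, h4⟩ := hA4 (ε / n) (by positivity)
  set e := ε / n with he
  refine ⟨(4 * (D + 1)) ^ n, by positivity, ?_⟩
  intro X hX Z x0 p q σ T hb hx0
  have hXp : (0 : ℝ) < X := by exact_mod_cast hX
  have hX1 : (1 : ℝ) ≤ X := by exact_mod_cast hX
  have hXe : 1 ≤ (X : ℝ) ^ e := Real.one_le_rpow hX1 (by rw [he]; positivity)
  have hP1 := one_le_PP x0
  have hP0 : 0 ≤ PP x0 := by linarith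
  set u : ℝ := (PP x0) ^ ((1 : ℝ) / n) with hu
  have hu0 : 0 < u := Real.rpow_pos_of_pos (by linarith) _
  have hun : u ^ n = PP x0 := root_pow hP0 (by omega)
  have hj : ∃ j, u ≤ rho x0 j := by
    by_contra hno
    push Not at hno
    have h1 : PP x0 < u ^ n := by
      unfold PP
      calc ∏ i, rho x0 i < ∏ _i : Fin n, u := by
            apply prod_lt_prod_of_nonempty
            · intro i _; linarith [one_le_rho x0 i]
            · intro i _; exact hno i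
            · exact ⟨⟨0, by omega⟩, mem_univ _⟩
        _ = u ^ n := by rw [prod_const, card_univ, Fintype.card_fin]
    linarith
  obtain ⟨j, hj⟩ := hj
  have h1 := boxA hD h4 hX hb hu0 hj
  have hA : 1 ≤ 4 * (D + 1) * (X : ℝ) ^ e := by nlinarith
  have h2 : (4 * D * (X : ℝ) ^ e) ^ (n - 1) ≤ (4 * (D + 1)) ^ n * (X : ℝ) ^ ε := by
    calc (4 * D * (X : ℝ) ^ e) ^ (n - 1) ≤ (4 * (D + 1) * (X : ℝ) ^ e) ^ (n - 1) := by
          gcongr; linarith
      _ ≤ (4 * (D + 1) * (X : ℝ) ^ e) ^ n := pow_le_pow_right₀ hA (by omega)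
      _ = _ := by
          rw [mul_pow, ← Real.rpow_natCast ((X : ℝ) ^ e), ← Real.rpow_mul hXp.le]
          congr 2
          rw [he]; field_simp
  have hPX : PP x0 ≤ (X : ℝ) ^ (1 / M) := PP_le hM hb hx0 (hb.mem x0 hx0).le
  have h3 : PP x0 / u = (PP x0) ^ (((n : ℝ) - 1) / n) := by
    rw [hu]
    nth_rewrite 1 [← Real.rpow_one (PP x0)]
    rw [← Real.rpow_sub (by linarith)]
    congr 1
    field_simp
  have h5 : PP x0 / u ≤ (X : ℝ) ^ (((n : ℝ) - 1) / (n * M)) := by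
    rw [h3]
    have h7 : (X : ℝ) ^ (((n : ℝ) - 1) / (n * M)) = ((X : ℝ) ^ (1 / M)) ^ (((n : ℝ) - 1) / n) := by
      rw [← Real.rpow_mul hXp.le]
      congr 1
      field_simp
    rw [h7]
    apply Real.rpow_le_rpow hP0 hPX
    have : (1 : ℝ) ≤ n := by exact_mod_cast (by omega : 1 ≤ n)
    apply div_nonneg (by linarith) hn0.le
  have h6 : (X : ℝ) ^ (((n : ℝ) - 1) / (n * M) + ε) =
      (X : ℝ) ^ ε * (X : ℝ) ^ (((n : ℝ) - 1) / (n * M)) := by
    rw [← Real.rpow_add hXp]; congr 1; ring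
  rw [h6]
  calc (T.card : ℝ) ≤ (4 * D * (X : ℝ) ^ e) ^ (n - 1) * (PP x0 / u) := h1
    _ ≤ ((4 * (D + 1)) ^ n * (X : ℝ) ^ ε) * (X : ℝ) ^ (((n : ℝ) - 1) / (n * M)) :=
        mul_le_mul h2 h5 (by positivity) (by positivity)
    _ = _ := by ring

theorem three_le_PP {n : ℕ} {p q r : Fin n} (hpq : p ≠ q) (hqr : q ≠ r) (hpr : p ≠ r)
    (x : Fin n → ℤ) : rho x r * rho x p * rho x q ≤ PP x := by
  classical
  rw [PP_split hpq hqr hpr x]
  have h1 : (1 : ℝ) ≤ ∏ i ∈ ((univ.erase p).erase q).erase r, rho x i := by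
    calc (1 : ℝ) = ∏ _i ∈ ((univ.erase p).erase q).erase r, (1 : ℝ) := by simp
      _ ≤ _ := prod_le_prod (fun _ _ => zero_le_one) fun i _ => one_le_rho x i
  have h3 : 0 ≤ rho x r * rho x p * rho x q := by
    have := one_le_rho x r
    have := one_le_rho x p
    have := one_le_rho x q
    positivity
  nlinarith

theorem box_strong (hA4 : StmtA4) (hC : HCount) {n : ℕ} (hn : 3 ≤ n) {M : ℝ} (hM : 10 / 9 ≤ M) :
    BoxBd n M ((3 * (n : ℝ) - 5) / ((3 * (n : ℝ) - 2) * M)) := by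
  intro ε hε
  have hM0 : 0 < M := by linarith
  have hn0 : (0 : ℝ) < n := by exact_mod_cast (by omega : 0 < n)
  have hn3 : (3 : ℝ) ≤ n := by exact_mod_cast hn
  obtain ⟨D, hD, h4⟩ := hA4 (ε / n) (by positivity)
  set e := ε / n with he
  have he0 : 0 < e := by rw [he]; positivity
  obtain ⟨C, hC0, hB⟩ := Box.fibB hC hn he0 h4
  refine ⟨(1 + 8 * (C * 2 ^ e)) * (4 * (D + 1)) ^ n, by positivity, ?_⟩
  intro X hX Z x0 p q σ T hb hx0
  have hXp : (0 : ℝ) < X := by exact_mod_cast hX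
  have hX1 : (1 : ℝ) ≤ X := by exact_mod_cast hX
  have hXe : 1 ≤ (X : ℝ) ^ e := Real.one_le_rpow hX1 he0.le
  have hP1 := one_le_PP x0
  have hP0 : 0 ≤ PP x0 := by linarith
  have hm : 1 ≤ 3 * n - 2 := by omega
  have hmR : ((3 * n - 2 : ℕ) : ℝ) = 3 * (n : ℝ) - 2 := by
    rw [Nat.cast_sub (by omega)]; push_cast; ring
  set u : ℝ := (PP x0) ^ ((1 : ℝ) / ((3 * n - 2 : ℕ) : ℝ)) with hu
  have hu0 : 0 < u := Real.rpow_pos_of_pos (by linarith) _
  have hun : u ^ (3 * n - 2) = PP x0 := root_pow hP0 hm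
  set A : ℝ := 4 * (D + 1) * (X : ℝ) ^ e with hAdef
  have hA : 1 ≤ A := by rw [hAdef]; nlinarith
  have hAX : (X : ℝ) ^ e ≤ A := by rw [hAdef]; nlinarith
  have hAn : A ^ n = (4 * (D + 1)) ^ n * (X : ℝ) ^ ε := by
    rw [hAdef, mul_pow, ← Real.rpow_natCast ((X : ℝ) ^ e), ← Real.rpow_mul hXp.le]
    congr 2
    rw [he]; field_simp
  have hDA : 4 * D * (X : ℝ) ^ e ≤ A := by rw [hAdef]; nlinarith
  have hD0 : 0 ≤ 4 * D * (X : ℝ) ^ e := by positivity
  have hPu0 : 0 ≤ PP x0 / u ^ 3 := by positivity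
  have key : (T.card : ℝ) ≤ (1 + 8 * (C * 2 ^ e)) * A ^ n * (PP x0 / u ^ 3) := by
    by_cases hj : ∃ j, u ^ 3 ≤ rho x0 j
    · obtain ⟨j, hj⟩ := hj
      have h1 := boxA hD h4 hX hb (by positivity) hj
      refine h1.trans ?_
      apply mul_le_mul_of_nonneg_right _ hPu0
      calc (4 * D * (X : ℝ) ^ e) ^ (n - 1) ≤ A ^ (n - 1) := pow_le_pow_left₀ hD0 hDA _
        _ ≤ A ^ n := pow_le_pow_right₀ hA (by omega)
        _ = 1 * A ^ n := (one_mul _).symm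
        _ ≤ _ := by
          apply mul_le_mul_of_nonneg_right _ (by positivity)
          have : 0 ≤ 8 * (C * 2 ^ e) := by positivity
          linarith
    · push Not at hj
      obtain ⟨r, hqr, hpr⟩ := exists_third hn p q
      have h7 := seven hn hu0 hb.pq hqr hpr x0 hun.symm (fun i => (hj i).le)
      have h1 := hB X hX x0 T hb.mem p q r hb.pq hqr hpr σ hb.sgn hb.eq Z hb.Z1 (by
        intro x hx
        refine ⟨hb.le x hx, hb.hp x hx, hb.hq x hx, ?_⟩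
        have hPx := PP_le hM0 hb hx (hb.le x hx)
        have hZ1 : (1 : ℝ) ≤ Z := by exact_mod_cast hb.Z1
        have h8 : (Z : ℝ) ^ (1 / M) ≤ (Z : ℝ) ^ ((9 : ℝ) / 10) := by
          apply Real.rpow_le_rpow_of_exponent_le hZ1
          rw [div_le_div_iff₀ hM0 (by norm_num)]
          linarith
        have h9 := three_le_PP hb.pq hqr hpr x
        push_cast
        exact (h9.trans hPx).trans h8)
      have hS := prod_const_mul (((univ.erase p).erase q).erase r) (4 * D * (X : ℝ) ^ e) x0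
      rw [card_erase3 hb.pq hqr hpr] at hS
      have hsp := PP_split hb.pq hqr hpr x0
      set Q3 : ℝ := rho x0 r * rho x0 p * rho x0 q with hQ3
      set W : ℝ := ∏ i ∈ ((univ.erase p).erase q).erase r, rho x0 i with hW
      have hQ1 : 0 < Q3 := lt_of_lt_of_le (by positivity) h7
      have hW0 : 0 ≤ W := prod_nonneg fun i _ => by linarith [one_le_rho x0 i]
      have hZe : (Z : ℝ) ^ e ≤ 2 ^ e * A := by
        calc (Z : ℝ) ^ e ≤ (2 * (X : ℝ)) ^ e := by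
              apply Real.rpow_le_rpow (Nat.cast_nonneg _) _ he0.le
              exact_mod_cast hb.ZX
          _ = 2 ^ e * (X : ℝ) ^ e := Real.mul_rpow (by norm_num) hXp.le
          _ ≤ 2 ^ e * A := by gcongr
      have h10 : (8 * Q3) ^ ((4 : ℝ) / 7) ≤ 8 * (Q3 / u ^ 3) := by
        rw [Real.mul_rpow (by norm_num) hQ1.le]
        have g1 : (8 : ℝ) ^ ((4 : ℝ) / 7) ≤ 8 := by
          calc (8 : ℝ) ^ ((4 : ℝ) / 7) ≤ (8 : ℝ) ^ (1 : ℝ) :=
                Real.rpow_le_rpow_of_exponent_le (by norm_num) (by norm_num)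
            _ = 8 := Real.rpow_one _
        have g2 : Q3 ^ ((4 : ℝ) / 7) ≤ Q3 / u ^ 3 := by
          rw [le_div_iff₀ (by positivity)]
          have g3 : u ^ 3 ≤ Q3 ^ ((3 : ℝ) / 7) := by
            have g4 : u ^ 3 = (u ^ 7) ^ ((3 : ℝ) / 7) := by
              rw [← Real.rpow_natCast, ← Real.rpow_natCast, ← Real.rpow_mul hu0.le]
              norm_num
            rw [g4]
            exact Real.rpow_le_rpow (by positivity) h7 (by norm_num)
          calc Q3 ^ ((4 : ℝ) / 7) * u ^ 3 ≤ Q3 ^ ((4 : ℝ) / 7) * Q3 ^ ((3 : ℝ) / 7) := by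
                gcongr
            _ = Q3 := by
                rw [← Real.rpow_add hQ1]
                norm_num
        exact mul_le_mul g1 g2 (by positivity) (by norm_num)
      have h11 : (∏ i ∈ ((univ.erase p).erase q).erase r,
          (4 * D * (X : ℝ) ^ e * (rad (x0 i).natAbs : ℝ))) ≤ A ^ (n - 3) * W := by
        unfold rho at hS
        rw [hS]
        have g1 : (4 * D * (X : ℝ) ^ e) ^ (n - 3) ≤ A ^ (n - 3) := pow_le_pow_left₀ hD0 hDA _
        exact mul_le_mul_of_nonneg_right g1 hW0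
      have h12 : C * (Z : ℝ) ^ e * (8 * ((rad (x0 r).natAbs : ℝ) * rad (x0 p).natAbs *
          rad (x0 q).natAbs)) ^ ((4 : ℝ) / 7) ≤ C * (2 ^ e * A) * (8 * (Q3 / u ^ 3)) := by
        have g0 : (rad (x0 r).natAbs : ℝ) * rad (x0 p).natAbs * rad (x0 q).natAbs = Q3 := rfl
        rw [g0]
        exact mul_le_mul (mul_le_mul_of_nonneg_left hZe hC0.le) h10 (by positivity) (by positivity)
      have h13 : A ^ (n - 3) * A ≤ A ^ n := by
        rw [← pow_succ]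
        exact pow_le_pow_right₀ hA (by omega)
      calc (T.card : ℝ) ≤ _ := h1
        _ ≤ (A ^ (n - 3) * W) * (C * (2 ^ e * A) * (8 * (Q3 / u ^ 3))) :=
            mul_le_mul h11 h12 (by positivity) (by positivity)
        _ = (8 * (C * 2 ^ e)) * (A ^ (n - 3) * A) * ((Q3 * W) / u ^ 3) := by ring
        _ = (8 * (C * 2 ^ e)) * (A ^ (n - 3) * A) * (PP x0 / u ^ 3) := by rw [← hsp]
        _ ≤ (1 + 8 * (C * 2 ^ e)) * A ^ n * (PP x0 / u ^ 3) := by
            apply mul_le_mul_of_nonneg_right _ hPu0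
            apply mul_le_mul _ h13 (by positivity) (by positivity)
            linarith
  have hPX : PP x0 ≤ (X : ℝ) ^ (1 / M) := PP_le hM0 hb hx0 (hb.mem x0 hx0).le
  have hden : (0 : ℝ) < 3 * (n : ℝ) - 2 := by linarith
  have h3 : PP x0 / u ^ 3 = (PP x0) ^ ((3 * (n : ℝ) - 5) / (3 * (n : ℝ) - 2)) := by
    rw [hu, ← Real.rpow_natCast, ← Real.rpow_mul hP0, hmR]
    nth_rewrite 1 [← Real.rpow_one (PP x0)]
    rw [← Real.rpow_sub (by linarith)]
    congr 1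
    push_cast
    field_simp
    ring
  have h5 : PP x0 / u ^ 3 ≤ (X : ℝ) ^ ((3 * (n : ℝ) - 5) / ((3 * (n : ℝ) - 2) * M)) := by
    rw [h3]
    have h7 : (X : ℝ) ^ ((3 * (n : ℝ) - 5) / ((3 * (n : ℝ) - 2) * M)) =
        ((X : ℝ) ^ (1 / M)) ^ ((3 * (n : ℝ) - 5) / (3 * (n : ℝ) - 2)) := by
      rw [← Real.rpow_mul hXp.le]
      congr 1
      field_simp
    rw [h7]
    apply Real.rpow_le_rpow hP0 hPX
    apply div_nonneg (by linarith) hden.le
  have h6 : (X : ℝ) ^ ((3 * (n : ℝ) - 5) / ((3 * (n : ℝ) - 2) * M) + ε) =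
      (X : ℝ) ^ ε * (X : ℝ) ^ ((3 * (n : ℝ) - 5) / ((3 * (n : ℝ) - 2) * M)) := by
    rw [← Real.rpow_add hXp]; congr 1; ring
  rw [h6]
  calc (T.card : ℝ) ≤ (1 + 8 * (C * 2 ^ e)) * A ^ n * (PP x0 / u ^ 3) := key
    _ ≤ (1 + 8 * (C * 2 ^ e)) * A ^ n *
        (X : ℝ) ^ ((3 * (n : ℝ) - 5) / ((3 * (n : ℝ) - 2) * M)) :=
        mul_le_mul_of_nonneg_left h5 (by positivity)
    _ = _ := by rw [hAn]; ring

end Opt

end Pool.Agent.W625.NC
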