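import Pool.Agent.W625.NC.Stm

/-!
Project NC, part Low: a lower bound for the number of admissible tuples (helper513).
-/

set_option autoImplicit false

namespace Pool.Agent.W625.NC

open Finset

theorem low_card_class (p Y : ℕ) (hp : 0 < p) (E : Finset ℤ)
    (hE : ∀ a ∈ E, -(Y : ℤ) ≤ a ∧ a ≤ Y) (hd : ∀ a ∈ E, ∀ b ∈ E, (p : ℤ) ∣ a - b) :
    E.card ≤ 2 * Y / p + 1 := by
  rcases E.eq_empty_or_nonempty with rfl | hne
  · simp
  · have he : E.min' hne ∈ E := E.min'_mem hne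
    obtain ⟨e, hedef⟩ : ∃ e, e = E.min' hne := ⟨_, rfl⟩
    rw [← hedef] at he
    have hp' : (0 : ℤ) < p := by exact_mod_cast hp
    rw [← Finset.card_range (2 * Y / p + 1)]
    refine Finset.card_le_card_of_injOn (fun a => ((a - e) / p).toNat) ?_ ?_
    · intro a ha
      have h1 : e ≤ a := by rw [hedef]; exact E.min'_le a ha
      have h2 := hE a ha
      have h3 := hE e he
      rw [Finset.coe_range, Set.mem_Iio]
      have h4 : (a - e) / p ≤ (2 * (Y : ℤ)) / p := Int.ediv_le_ediv hp' (by linarith)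
      have h5 : ((2 * Y / p : ℕ) : ℤ) = (2 * (Y : ℤ)) / p := by push_cast; rfl
      rw [← h5] at h4
      have h6 : 0 ≤ (a - e) / (p : ℤ) := Int.ediv_nonneg (by linarith) hp'.le
      show ((a - e) / (p : ℤ)).toNat < 2 * Y / p + 1
      have h7 : (((a - e) / (p : ℤ)).toNat : ℤ) ≤ ((2 * Y / p : ℕ) : ℤ) := by
        rw [Int.toNat_of_nonneg h6]
        exact h4
      have h8 : ((a - e) / (p : ℤ)).toNat ≤ 2 * Y / p := by exact_mod_cast h7
      exact Nat.lt_succ_of_le h8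
    · intro a ha b hb hab
      have h1 : e ≤ a := by rw [hedef]; exact E.min'_le a ha
      have h1' : e ≤ b := by rw [hedef]; exact E.min'_le b hb
      simp only at hab
      obtain ⟨u, hu⟩ := hd a ha e he
      obtain ⟨w, hw⟩ := hd b hb e he
      rw [hu, hw, Int.mul_ediv_cancel_left _ hp'.ne', Int.mul_ediv_cancel_left _ hp'.ne'] at hab
      have hu0 : 0 ≤ u := by
        by_contra hneg
        have : (p : ℤ) * u < 0 := mul_neg_of_pos_of_neg hp' (by omega)
        omega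
      have hw0 : 0 ≤ w := by
        by_contra hneg
        have : (p : ℤ) * w < 0 := mul_neg_of_pos_of_neg hp' (by omega)
        omega
      have huw : u = w := by omega
      rw [huw] at hu
      linarith

theorem low_cnt (m p Y : ℕ) (hp : 0 < p) (S : Finset (Fin m → ℤ))
    (hS : ∀ y ∈ S, ∀ l, -(Y : ℤ) ≤ y l ∧ y l ≤ Y) (i k : Fin m) (hik : i ≠ k)
    (hi : ∀ y ∈ S, ∀ y' ∈ S, (p : ℤ) ∣ y i - y' i)
    (hk : ∀ y ∈ S, ∀ y' ∈ S, (∀ l, l ≠ k → y l = y' l) → (p : ℤ) ∣ y k - y' k) :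
    S.card ≤ (2 * Y / p + 1) ^ 2 * (2 * Y + 1) ^ (m - 2) := by
  classical
  obtain ⟨c, hc⟩ : ∃ c, c = 2 * Y / p + 1 := ⟨_, rfl⟩
  let B : Finset ℤ := Finset.Icc (-(Y : ℤ)) Y
  have hB : B.card = 2 * Y + 1 := by
    simp only [B, Int.card_Icc]
    omega
  let E : Finset ℤ := S.image (fun y => y i)
  have hE : E.card ≤ c := by
    rw [hc]
    apply low_card_class p Y hp
    · intro a ha
      obtain ⟨y, hy, rfl⟩ := Finset.mem_image.mp ha
      exact hS y hy i
    · intro a ha b hb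
      obtain ⟨y, hy, rfl⟩ := Finset.mem_image.mp ha
      obtain ⟨y', hy', rfl⟩ := Finset.mem_image.mp hb
      exact hi y hy y' hy'
  let g : Fin m → Finset ℤ := fun l => if l = k then {0} else if l = i then E else B
  have hgk : (g k).card = 1 := by simp [g]
  have hgi : (g i).card = E.card := by simp [g, hik]
  have ht : (Fintype.piFinset g).card ≤ c * (2 * Y + 1) ^ (m - 2) := by
    rw [Fintype.card_piFinset, ← Finset.mul_prod_erase _ _ (Finset.mem_univ k),
      ← Finset.mul_prod_erase (Finset.univ.erase k) _ (Finset.mem_erase.mpr ⟨hik, Finset.mem_univ i⟩),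
      hgk, hgi, one_mul]
    have hprod : ∏ l ∈ (Finset.univ.erase k).erase i, (g l).card = (2 * Y + 1) ^ (m - 2) := by
      have h1 : ∀ l ∈ (Finset.univ.erase k).erase i, (g l).card = 2 * Y + 1 := by
        intro l hl
        have h2 : l ≠ i := Finset.ne_of_mem_erase hl
        have h3 : l ≠ k := Finset.ne_of_mem_erase (Finset.mem_of_mem_erase hl)
        simp only [g, if_neg h2, if_neg h3, hB]
      rw [Finset.prod_congr rfl h1, Finset.prod_const,
        Finset.card_erase_of_mem (Finset.mem_erase.mpr ⟨hik, Finset.mem_univ i⟩),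
        Finset.card_erase_of_mem (Finset.mem_univ k), Finset.card_univ, Fintype.card_fin]
      rfl
    rw [hprod]
    exact Nat.mul_le_mul_right _ hE
  have hmap : ∀ y ∈ S, Function.update y k 0 ∈ Fintype.piFinset g := by
    intro y hy
    rw [Fintype.mem_piFinset]
    intro l
    by_cases hlk : l = k
    · subst hlk
      simp [g]
    · rw [Function.update_of_ne hlk]
      by_cases hli : l = i
      · subst hli
        simp only [g, if_neg hlk, if_true]
        exact Finset.mem_image_of_mem (fun y : Fin m → ℤ => y l) hy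
      · simp only [g, if_neg hlk, if_neg hli, B]
        exact Finset.mem_Icc.mpr (hS y hy l)
  have hfib : ∀ b ∈ Fintype.piFinset g, (S.filter (fun y => Function.update y k 0 = b)).card ≤ c := by
    intro b _
    have hagree : ∀ y ∈ S.filter (fun y => Function.update y k 0 = b),
        ∀ y' ∈ S.filter (fun y => Function.update y k 0 = b), ∀ l, l ≠ k → y l = y' l := by
      intro y hy y' hy' l hl
      have h1 := (Finset.mem_filter.mp hy).2
      have h2 := (Finset.mem_filter.mp hy').2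
      have h3 := congrFun (h1.trans h2.symm) l
      rwa [Function.update_of_ne hl, Function.update_of_ne hl] at h3
    have hinj : Set.InjOn (fun y : Fin m → ℤ => y k)
        (S.filter (fun y => Function.update y k 0 = b) : Set (Fin m → ℤ)) := by
      intro y hy y' hy' h
      funext l
      by_cases hl : l = k
      · rw [hl]; exact h
      · exact hagree y hy y' hy' l hl
    rw [← Finset.card_image_of_injOn hinj, hc]
    apply low_card_class p Y hp
    · intro a ha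
      obtain ⟨y, hy, rfl⟩ := Finset.mem_image.mp ha
      exact hS y (Finset.mem_filter.mp hy).1 k
    · intro a ha a' ha'
      obtain ⟨y, hy, rfl⟩ := Finset.mem_image.mp ha
      obtain ⟨y', hy', rfl⟩ := Finset.mem_image.mp ha'
      exact hk y (Finset.mem_filter.mp hy).1 y' (Finset.mem_filter.mp hy').1 (hagree y hy y' hy')
  have hfin := Finset.card_le_mul_card_image_of_maps_to (f := fun y : Fin m → ℤ => Function.update y k 0)
    hmap c hfib
  calc S.card ≤ c * (Fintype.piFinset g).card := hfin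
    _ ≤ c * (c * (2 * Y + 1) ^ (m - 2)) := Nat.mul_le_mul_left _ ht
    _ = (2 * Y / p + 1) ^ 2 * (2 * Y + 1) ^ (m - 2) := by rw [← hc]; ring

theorem low_exists_r (n : ℕ) : 2 ≤ n → ∃ r : Fin n → ℤ, ∑ i, r i = 0 ∧
    (∀ i, r i ≠ 0 ∧ |r i| ≤ 2) ∧ ∀ i j, i ≠ j → (|r i| = 1 ∨ |r j| = 1) := by
  induction n using Nat.strong_induction_on with
  | _ n ih =>
    intro hn
    by_cases h2 : n = 2
    · subst h2
      refine ⟨![1, -1], by simp, ?_, ?_⟩
      · intro i
        fin_cases i <;> simp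
      · intro i j _
        left
        fin_cases i <;> simp
    by_cases h3 : n = 3
    · subst h3
      refine ⟨![1, 1, -2], by simp [Fin.sum_univ_three], ?_, ?_⟩
      · intro i
        fin_cases i <;> simp
      · intro i j hij
        fin_cases i <;> fin_cases j <;> simp at hij ⊢
    obtain ⟨k, rfl⟩ : ∃ k, n = k + 2 := ⟨n - 2, by omega⟩
    obtain ⟨r, hr0, hr1, hr2⟩ := ih k (by omega) (by omega)
    refine ⟨Fin.cons 1 (Fin.cons (-1) r), ?_, ?_, ?_⟩
    · rw [Fin.sum_cons, Fin.sum_cons, hr0]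
      norm_num
    · intro i
      refine Fin.cases ?_ (fun i => ?_) i
      · simp
      · refine Fin.cases ?_ (fun i => ?_) i
        · simp
        · simpa using hr1 i
    · intro i
      refine Fin.cases ?_ (fun i => ?_) i
      · intro j _
        left
        simp
      · refine Fin.cases ?_ (fun i => ?_) i
        · intro j _
          left
          simp
        · intro j
          refine Fin.cases ?_ (fun j => ?_) j
          · intro _
            right
            simp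
          · refine Fin.cases ?_ (fun j => ?_) j
            · intro _
              right
              simp
            · intro hij
              have h := hr2 i j (fun h => hij (by rw [h]))
              simpa using h

/-- the coordinates: `y` and minus the sum -/
def low_z {m : ℕ} (y : Fin m → ℤ) : Fin (m + 1) → ℤ := Fin.snoc (α := fun _ => ℤ) y (-∑ l, y l)

theorem low_z_cs {m : ℕ} (y : Fin m → ℤ) (i : Fin m) : low_z y i.castSucc = y i := by
  simp [low_z]

theorem low_z_last {m : ℕ} (y : Fin m → ℤ) : low_z y (Fin.last m) = -∑ l, y l := by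
  simp [low_z]

/-- the tuples -/
def low_f {m : ℕ} (r : Fin (m + 1) → ℤ) (Q : ℕ) (y : Fin m → ℤ) : Fin (m + 1) → ℤ :=
  fun i => r i + Q * low_z y i

theorem low_f_sum {m : ℕ} (r : Fin (m + 1) → ℤ) (hr : ∑ i, r i = 0) (Q : ℕ) (y : Fin m → ℤ) :
    ∑ i, low_f r Q y i = 0 := by
  unfold low_f
  rw [Finset.sum_add_distrib, hr, ← Finset.mul_sum, Fin.sum_univ_castSucc, low_z_last]
  simp only [low_z_cs]
  ring

theorem low_f_ne {m : ℕ} (r : Fin (m + 1) → ℤ) (hr : ∀ i, r i ≠ 0 ∧ |r i| ≤ 2) (Q : ℕ) (hQ : 3 ≤ Q)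
    (y : Fin m → ℤ) (i : Fin (m + 1)) : low_f r Q y i ≠ 0 := by
  unfold low_f
  intro h
  have h1 : (Q : ℤ) ∣ r i := ⟨-low_z y i, by linarith⟩
  have hQ' : (3 : ℤ) ≤ Q := by exact_mod_cast hQ
  have h2 : |r i| < (Q : ℤ) := by
    have := (hr i).2
    linarith
  exact (hr i).1 (Int.eq_zero_of_abs_lt_dvd h1 h2)

theorem low_f_inj {m : ℕ} (r : Fin (m + 1) → ℤ) (Q : ℕ) (hQ : 3 ≤ Q) :
    Function.Injective (low_f r Q : (Fin m → ℤ) → (Fin (m + 1) → ℤ)) := by
  intro y y' h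
  funext l
  have h1 := congrFun h l.castSucc
  unfold low_f at h1
  rw [low_z_cs, low_z_cs] at h1
  have hQ' : (Q : ℤ) ≠ 0 := by
    have : (3 : ℤ) ≤ Q := by exact_mod_cast hQ
    omega
  have h2 : (Q : ℤ) * y l = Q * y' l := by linarith
  exact mul_left_cancel₀ hQ' h2

theorem low_f_abs {m : ℕ} (hm : 1 ≤ m) (r : Fin (m + 1) → ℤ) (hr : ∀ i, r i ≠ 0 ∧ |r i| ≤ 2)
    (Q Y X : ℕ) (hX : 4 ≤ X) (h : 2 * (m + 1) * Q * Y ≤ X) (y : Fin m → ℤ)
    (hy : ∀ l, -(Y : ℤ) ≤ y l ∧ y l ≤ Y) (i : Fin (m + 1)) : |low_f r Q y i| ≤ (X : ℤ) := by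
  have hz : |low_z y i| ≤ (m : ℤ) * Y := by
    have hm' : (1 : ℤ) ≤ m := by exact_mod_cast hm
    refine Fin.lastCases ?_ (fun l => ?_) i
    · rw [low_z_last, abs_neg]
      refine (Finset.abs_sum_le_sum_abs _ _).trans ?_
      refine (Finset.sum_le_sum (fun l _ => abs_le.mpr (hy l))).trans ?_
      rw [Finset.sum_const, Finset.card_univ, Fintype.card_fin, nsmul_eq_mul]
    · rw [low_z_cs]
      have h1 : |y l| ≤ (Y : ℤ) := abs_le.mpr (hy l)
      have h2 : (0 : ℤ) ≤ Y := by positivity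
      nlinarith
  unfold low_f
  have h1 : |r i + Q * low_z y i| ≤ |r i| + |(Q : ℤ) * low_z y i| := abs_add_le _ _
  rw [abs_mul, Nat.abs_cast] at h1
  have h2 : (Q : ℤ) * |low_z y i| ≤ Q * (m * Y) := mul_le_mul_of_nonneg_left hz (by positivity)
  have h3 : (2 * ((m : ℤ) + 1) * Q * Y) ≤ X := by exact_mod_cast h
  have h4 := (hr i).2
  have h5 : (4 : ℤ) ≤ X := by exact_mod_cast hX
  have h6 : (0 : ℤ) ≤ Q * Y := by positivity
  nlinarith

/-- a large prime dividing two coordinates -/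
theorem low_S {m : ℕ} (hm : 2 ≤ m) (r : Fin (m + 1) → ℤ) (Q Y p : ℕ) (hp : p.Prime) (hpQ : ¬ p ∣ Q)
    (i j : Fin (m + 1)) (hij : i < j) (S : Finset (Fin m → ℤ))
    (hS : ∀ y ∈ S, (∀ l, -(Y : ℤ) ≤ y l ∧ y l ≤ Y) ∧ (p : ℤ) ∣ low_f r Q y i ∧
      (p : ℤ) ∣ low_f r Q y j) :
    S.card ≤ (2 * Y / p + 1) ^ 2 * (2 * Y + 1) ^ (m - 2) := by
  have hpi : Prime (p : ℤ) := Nat.prime_iff_prime_int.mp hp
  have hpQ' : ¬ (p : ℤ) ∣ (Q : ℤ) := by
    intro h
    exact hpQ (by exact_mod_cast h)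
  have hdiff : ∀ (k : Fin (m + 1)) (y y' : Fin m → ℤ), (p : ℤ) ∣ low_f r Q y k →
      (p : ℤ) ∣ low_f r Q y' k → (p : ℤ) ∣ low_z y k - low_z y' k := by
    intro k y y' h h'
    have h1 := dvd_sub h h'
    have h2 : low_f r Q y k - low_f r Q y' k = Q * (low_z y k - low_z y' k) := by
      unfold low_f
      ring
    rw [h2] at h1
    exact (hpi.dvd_or_dvd h1).resolve_left hpQ'
  have hil : i ≠ Fin.last m := by
    intro h
    rw [h] at hij
    exact absurd hij (not_lt.mpr (Fin.le_last j))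
  obtain ⟨i', hi'⟩ := Fin.exists_castSucc_eq.mpr hil
  have hi : ∀ y ∈ S, ∀ y' ∈ S, (p : ℤ) ∣ y i' - y' i' := by
    intro y hy y' hy'
    have h := hdiff i y y' (hS y hy).2.1 (hS y' hy').2.1
    rwa [← hi', low_z_cs, low_z_cs] at h
  by_cases hjl : j = Fin.last m
  · have hnt : Nontrivial (Fin m) := Fin.nontrivial_iff_two_le.mpr hm
    obtain ⟨k, hk⟩ := exists_ne i'
    refine low_cnt m p Y hp.pos S (fun y hy => (hS y hy).1) i' k hk.symm hi ?_
    intro y hy y' hy' hag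
    have h := hdiff j y y' (hS y hy).2.2 (hS y' hy').2.2
    rw [hjl, low_z_last, low_z_last] at h
    have h1 : ∑ l, y l - ∑ l, y' l = y k - y' k := by
      rw [← Finset.sum_sub_distrib]
      refine Finset.sum_eq_single k (fun l _ hl => ?_) (fun h => absurd (Finset.mem_univ k) h)
      rw [hag l hl, sub_self]
    have h2 : -∑ l, y l - -∑ l, y' l = -(y k - y' k) := by
      rw [← h1]
      ring
    rw [h2] at h
    exact (dvd_neg).mp h
  · obtain ⟨k, hk⟩ := Fin.exists_castSucc_eq.mpr hjl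
    have hik : i' ≠ k := by
      intro h
      rw [← hi', ← hk, h] at hij
      exact absurd hij (lt_irrefl _)
    refine low_cnt m p Y hp.pos S (fun y hy => (hS y hy).1) i' k hik hi ?_
    intro y hy y' hy' _
    have h := hdiff j y y' (hS y hy).2.2 (hS y' hy').2.2
    rwa [← hk, low_z_cs, low_z_cs] at h

/-- the sum over the large integers -/
theorem low_sum (P0 X Y : ℕ) (hP : 0 < P0) (hPX : P0 ≤ X) :
    ∑ p ∈ Finset.Ioc P0 X, ((2 * Y / p + 1 : ℕ) : ℝ) ^ 2 ≤
      2 * (2 * (Y : ℝ) + 1) ^ 2 / P0 + 2 * X := by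
  have h1 : ∀ p ∈ Finset.Ioc P0 X, ((2 * Y / p + 1 : ℕ) : ℝ) ^ 2 ≤
      2 * (2 * (Y : ℝ) + 1) ^ 2 * ((p : ℝ) ^ 2)⁻¹ + 2 := by
    intro p hp
    have hp0 : 0 < p := lt_trans hP (Finset.mem_Ioc.mp hp).1
    have hp0' : (0 : ℝ) < p := by exact_mod_cast hp0
    have h2 : ((2 * Y / p : ℕ) : ℝ) ≤ (2 * (Y : ℝ) + 1) / p := by
      refine (Nat.cast_div_le (α := ℝ)).trans ?_
      push_cast
      exact div_le_div_of_nonneg_right (by linarith) hp0'.le
    have h3 : (0 : ℝ) ≤ ((2 * Y / p : ℕ) : ℝ) := Nat.cast_nonneg _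
    push_cast at h2 h3 ⊢
    have h4 : (((2 * Y / p : ℕ) : ℝ) + 1) ^ 2 ≤ ((2 * (Y : ℝ) + 1) / p + 1) ^ 2 := by
      apply pow_le_pow_left₀ (by positivity)
      linarith
    have h5 : ((2 * (Y : ℝ) + 1) / p + 1) ^ 2 ≤ 2 * ((2 * (Y : ℝ) + 1) / p) ^ 2 + 2 := by
      nlinarith [sq_nonneg ((2 * (Y : ℝ) + 1) / p - 1)]
    have h6 : 2 * ((2 * (Y : ℝ) + 1) / p) ^ 2 = 2 * (2 * (Y : ℝ) + 1) ^ 2 * ((p : ℝ) ^ 2)⁻¹ := by
      field_simp
    rw [← h6]
    exact h4.trans h5
  refine (Finset.sum_le_sum h1).trans ?_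
  rw [Finset.sum_add_distrib, ← Finset.mul_sum, Finset.sum_const, nsmul_eq_mul, Nat.card_Ioc]
  have h2 := sum_Ioc_inv_sq_le_sub (α := ℝ) hP.ne' hPX
  have h3 : (0 : ℝ) ≤ (X : ℝ)⁻¹ := by positivity
  have h4 : (0 : ℝ) ≤ 2 * (2 * (Y : ℝ) + 1) ^ 2 := by positivity
  have h5 : 2 * (2 * (Y : ℝ) + 1) ^ 2 * ∑ i ∈ Finset.Ioc P0 X, ((i : ℝ) ^ 2)⁻¹ ≤
      2 * (2 * (Y : ℝ) + 1) ^ 2 * (P0 : ℝ)⁻¹ := by
    apply mul_le_mul_of_nonneg_left _ h4
    linarith
  have h6 : ((X - P0 : ℕ) : ℝ) ≤ X := by exact_mod_cast Nat.sub_le X P0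
  rw [div_eq_mul_inv]
  linarith

theorem low : Low := by
  classical
  intro n hn
  obtain ⟨m, rfl⟩ : ∃ m, n = m + 1 := ⟨n - 1, by omega⟩
  have hm : 2 ≤ m := by omega
  obtain ⟨r, hr0, hr1, hr2⟩ := low_exists_r (m + 1) (by omega)
  obtain ⟨P0, hP0⟩ : ∃ P0, P0 = 8 * (m + 1) ^ 2 := ⟨_, rfl⟩
  obtain ⟨Q, hQdef⟩ : ∃ Q, Q = P0.factorial := ⟨_, rfl⟩
  have hP0' : 3 ≤ P0 := by
    rw [hP0]
    nlinarith
  have hQ3 : 3 ≤ Q := by
    rw [hQdef]
    exact hP0'.trans (Nat.self_le_factorial P0)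
  obtain ⟨D, hD⟩ : ∃ D, D = 2 * (m + 1) * Q := ⟨_, rfl⟩
  have hD0 : 0 < D := by
    rw [hD]
    positivity
  have hD0' : (0 : ℝ) < D := by exact_mod_cast hD0
  refine ⟨(1 / (D : ℝ)) ^ m / 2, by positivity, P0 * D ^ 2 + P0 + 4, ?_⟩
  intro X hX
  obtain ⟨Y, hY⟩ : ∃ Y, Y = X / D := ⟨_, rfl⟩
  have hX4 : 4 ≤ X := by omega
  have hXP : P0 ≤ X := by
    have : 0 ≤ P0 * D ^ 2 := Nat.zero_le _
    omega
  have hXD : P0 * D ^ 2 ≤ X := by omega
  have h1 : D * Y ≤ X := by
    rw [hY]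
    exact Nat.mul_div_le X D
  have h2 : X ≤ D * (2 * Y + 1) := by
    have h3 := Nat.lt_mul_div_succ X hD0
    rw [← hY] at h3
    have h4 : D * (Y + 1) ≤ D * (2 * Y + 1) := Nat.mul_le_mul_left D (by omega)
    omega
  have h3 : P0 * X ≤ (2 * Y + 1) ^ 2 := by
    have h4 : X * X ≤ (D * (2 * Y + 1)) * (D * (2 * Y + 1)) := Nat.mul_le_mul h2 h2
    have h5 : (P0 * D ^ 2) * X ≤ X * X := Nat.mul_le_mul_right X hXD
    have h6 : D ^ 2 * (P0 * X) ≤ D ^ 2 * (2 * Y + 1) ^ 2 := by nlinarith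
    exact Nat.le_of_mul_le_mul_left h6 (by positivity)
  -- the box
  let box : Finset (Fin m → ℤ) := Fintype.piFinset (fun _ => Finset.Icc (-(Y : ℤ)) Y)
  have hbox : ∀ y ∈ box, ∀ l, -(Y : ℤ) ≤ y l ∧ y l ≤ Y := by
    intro y hy l
    exact Finset.mem_Icc.mp ((Fintype.mem_piFinset.mp hy) l)
  have hboxc : box.card = (2 * Y + 1) ^ m := by
    simp only [box]
    rw [Fintype.card_piFinset, Finset.prod_const, Finset.card_univ, Fintype.card_fin, Int.card_Icc]
    congr 1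
    omega
  let Cop : (Fin m → ℤ) → Prop := fun y => ∀ i j, i ≠ j → Int.gcd (low_f r Q y i) (low_f r Q y j) = 1
  let Good : Finset (Fin m → ℤ) := box.filter Cop
  let Bad : Finset (Fin m → ℤ) := box.filter (fun y => ¬ Cop y)
  have hGB : Good.card + Bad.card = box.card := Finset.card_filter_add_card_filter_not Cop
  let S : ℕ → Fin (m + 1) × Fin (m + 1) → Finset (Fin m → ℤ) := fun p ij =>
    box.filter (fun y => (p : ℤ) ∣ low_f r Q y ij.1 ∧ (p : ℤ) ∣ low_f r Q y ij.2)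
  have hBad : Bad ⊆ ((Finset.Ioc P0 X).filter Nat.Prime).biUnion (fun p =>
      ((Finset.univ : Finset (Fin (m + 1) × Fin (m + 1))).filter (fun ij => ij.1 < ij.2)).biUnion
        (fun ij => S p ij)) := by
    intro y hy
    have hyb := (Finset.mem_filter.mp hy).1
    have hyc := (Finset.mem_filter.mp hy).2
    have hex : ∃ i j, i < j ∧ Int.gcd (low_f r Q y i) (low_f r Q y j) ≠ 1 := by
      by_contra hno
      push Not at hno
      apply hyc
      intro i j hij
      rcases lt_or_gt_of_ne hij with h | h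
      · exact hno i j h
      · rw [Int.gcd_comm]
        exact hno j i h
    obtain ⟨i, j, hij, hg⟩ := hex
    obtain ⟨p, hp, hpd⟩ := Nat.exists_prime_and_dvd hg
    have hpi : (p : ℤ) ∣ low_f r Q y i := (Int.natCast_dvd_natCast.mpr hpd).trans (Int.gcd_dvd_left _ _)
    have hpj : (p : ℤ) ∣ low_f r Q y j := (Int.natCast_dvd_natCast.mpr hpd).trans (Int.gcd_dvd_right _ _)
    have hpP : P0 < p := by
      by_contra hle
      have h4 : p ∣ Q := by
        rw [hQdef]
        exact (Nat.Prime.dvd_factorial hp).mpr (not_lt.mp hle)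
      have h4' : (p : ℤ) ∣ (Q : ℤ) := Int.natCast_dvd_natCast.mpr h4
      have hri : ∀ k, (p : ℤ) ∣ low_f r Q y k → (p : ℤ) ∣ r k := by
        intro k hk
        have h5 : r k = low_f r Q y k - Q * low_z y k := by
          unfold low_f
          ring
        rw [h5]
        exact dvd_sub hk (h4'.mul_right _)
      have hone : (p : ℤ) ∣ 1 := by
        rcases hr2 i j hij.ne with h | h
        · rw [← h]
          exact (dvd_abs _ _).mpr (hri i hpi)
        · rw [← h]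
          exact (dvd_abs _ _).mpr (hri j hpj)
      have : (p : ℤ) ≤ 1 := Int.le_of_dvd one_pos hone
      have h2p := hp.two_le
      omega
    have hpX : p ≤ X := by
      have h4 : (p : ℤ) ≤ |low_f r Q y i| := Int.le_of_dvd
        (abs_pos.mpr (low_f_ne r hr1 Q hQ3 y i)) ((dvd_abs _ _).mpr hpi)
      have h5 := low_f_abs (by omega) r hr1 Q Y X hX4 (by rw [← hD]; exact h1) y (hbox y hyb) i
      exact_mod_cast h4.trans h5
    rw [Finset.mem_biUnion]
    refine ⟨p, Finset.mem_filter.mpr ⟨Finset.mem_Ioc.mpr ⟨hpP, hpX⟩, hp⟩, ?_⟩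
    rw [Finset.mem_biUnion]
    exact ⟨(i, j), Finset.mem_filter.mpr ⟨Finset.mem_univ _, hij⟩,
      Finset.mem_filter.mpr ⟨hyb, hpi, hpj⟩⟩
  have hBadc : (Bad.card : ℝ) ≤ ((2 * (Y : ℝ) + 1) ^ m) / 2 := by
    obtain ⟨M, hM⟩ : ∃ M : ℕ, M = (2 * Y + 1) ^ (m - 2) := ⟨_, rfl⟩
    have h4 : Bad.card ≤ ∑ p ∈ Finset.Ioc P0 X, (m + 1) ^ 2 * ((2 * Y / p + 1) ^ 2 * M) := by
      refine (Finset.card_le_card hBad).trans (Finset.card_biUnion_le.trans ?_)
      refine le_trans ?_ (Finset.sum_le_sum_of_subset (Finset.filter_subset Nat.Prime _))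
      refine Finset.sum_le_sum (fun p hp => ?_)
      obtain ⟨hp1, hp2⟩ := Finset.mem_filter.mp hp
      have hpQ : ¬ p ∣ Q := by
        rw [hQdef, Nat.Prime.dvd_factorial hp2]
        exact not_le.mpr (Finset.mem_Ioc.mp hp1).1
      refine Finset.card_biUnion_le.trans ?_
      have h5 : ∀ ij ∈ (Finset.univ : Finset (Fin (m + 1) × Fin (m + 1))).filter
          (fun ij => ij.1 < ij.2), (S p ij).card ≤ (2 * Y / p + 1) ^ 2 * M := by
        intro ij hij
        rw [hM]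
        exact low_S hm r Q Y p hp2 hpQ ij.1 ij.2 (Finset.mem_filter.mp hij).2 _ (fun y hy =>
          ⟨hbox y (Finset.mem_filter.mp hy).1, (Finset.mem_filter.mp hy).2⟩)
      refine (Finset.sum_le_card_nsmul _ _ _ h5).trans ?_
      rw [smul_eq_mul]
      refine Nat.mul_le_mul_right _ ?_
      refine (Finset.card_filter_le _ _).trans ?_
      simp [sq]
    have h5 : (Bad.card : ℝ) ≤ ((m : ℝ) + 1) ^ 2 * M *
        ∑ p ∈ Finset.Ioc P0 X, ((2 * Y / p + 1 : ℕ) : ℝ) ^ 2 := by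
      have h6 : (Bad.card : ℝ) ≤
          ((∑ p ∈ Finset.Ioc P0 X, (m + 1) ^ 2 * ((2 * Y / p + 1) ^ 2 * M) : ℕ) : ℝ) := by
        exact_mod_cast h4
      refine h6.trans (le_of_eq ?_)
      rw [Nat.cast_sum, Finset.mul_sum]
      refine Finset.sum_congr rfl (fun p _ => ?_)
      push_cast
      ring
    have h6 := low_sum P0 X Y (by omega) hXP
    obtain ⟨N, hN⟩ : ∃ N : ℝ, N = 2 * (Y : ℝ) + 1 := ⟨_, rfl⟩
    have hP0r : (P0 : ℝ) = 8 * ((m : ℝ) + 1) ^ 2 := by
      rw [hP0]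
      push_cast
      ring
    have hm1 : (0 : ℝ) < ((m : ℝ) + 1) ^ 2 := by positivity
    have h3r : 8 * ((m : ℝ) + 1) ^ 2 * X ≤ N ^ 2 := by
      rw [← hP0r, hN]
      exact_mod_cast h3
    rw [← hN] at h6 ⊢
    have h7 : ((m : ℝ) + 1) ^ 2 * (2 * N ^ 2 / P0 + 2 * X) ≤ N ^ 2 / 2 := by
      rw [hP0r]
      have h8 : ((m : ℝ) + 1) ^ 2 * (2 * N ^ 2 / (8 * ((m : ℝ) + 1) ^ 2)) = N ^ 2 / 4 := by
        field_simp
        ring
      rw [mul_add, h8]
      linarith
    have hMr : (M : ℝ) * N ^ 2 = N ^ m := by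
      rw [hM, hN]
      push_cast
      rw [← pow_add]
      congr 1
      omega
    have hM0 : (0 : ℝ) ≤ M := Nat.cast_nonneg _
    calc (Bad.card : ℝ) ≤ ((m : ℝ) + 1) ^ 2 * M *
          ∑ p ∈ Finset.Ioc P0 X, ((2 * Y / p + 1 : ℕ) : ℝ) ^ 2 := h5
      _ ≤ ((m : ℝ) + 1) ^ 2 * M * (2 * N ^ 2 / P0 + 2 * X) :=
          mul_le_mul_of_nonneg_left h6 (by positivity)
      _ = M * (((m : ℝ) + 1) ^ 2 * (2 * N ^ 2 / P0 + 2 * X)) := by ring
      _ ≤ M * (N ^ 2 / 2) := mul_le_mul_of_nonneg_left h7 hM0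
      _ = N ^ m / 2 := by rw [← hMr]; ring
  have hGood : ((2 * (Y : ℝ) + 1) ^ m) / 2 ≤ (Good.card : ℝ) := by
    have h4 : (Good.card : ℝ) + Bad.card = (2 * (Y : ℝ) + 1) ^ m := by
      have h5 : ((Good.card + Bad.card : ℕ) : ℝ) = ((box.card : ℕ) : ℝ) := by rw [hGB]
      rw [hboxc] at h5
      push_cast at h5
      exact h5
    linarith
  -- the set of admissible tuples
  have hfin : {x : Fin (m + 1) → ℤ | Adm (m + 1) X x}.Finite := by
    refine (Fintype.piFinset (fun _ : Fin (m + 1) => Finset.Icc (-(X : ℤ)) X)).finite_toSet.subset ?_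
    intro x hx
    rw [Finset.mem_coe, Fintype.mem_piFinset]
    intro i
    exact Finset.mem_Icc.mpr (abs_le.mp (hx.2.2.2 i))
  have hcard : Good.card ≤ {x : Fin (m + 1) → ℤ | Adm (m + 1) X x}.ncard := by
    rw [← Finset.card_image_of_injective Good (low_f_inj r Q hQ3), ← Set.ncard_coe_finset]
    refine Set.ncard_le_ncard ?_ hfin
    intro x hx
    rw [Finset.mem_coe, Finset.mem_image] at hx
    obtain ⟨y, hy, rfl⟩ := hx
    obtain ⟨hyb, hyc⟩ := Finset.mem_filter.mp hy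
    exact ⟨low_f_ne r hr1 Q hQ3 y, hyc, low_f_sum r hr0 Q y,
      low_f_abs (by omega) r hr1 Q Y X hX4 (by rw [← hD]; exact h1) y (hbox y hyb)⟩
  have hcard' : (Good.card : ℝ) ≤ ({x : Fin (m + 1) → ℤ | Adm (m + 1) X x}.ncard : ℝ) := by
    exact_mod_cast hcard
  refine le_trans ?_ (hGood.trans hcard')
  have hexp : (((m + 1 : ℕ) : ℝ) - 1) = (m : ℝ) := by
    push_cast
    ring
  rw [hexp, Real.rpow_natCast]
  have h4 : 1 / (D : ℝ) * X ≤ 2 * (Y : ℝ) + 1 := by
    rw [one_div, inv_mul_le_iff₀ hD0']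
    exact_mod_cast h2
  calc (1 / (D : ℝ)) ^ m / 2 * (X : ℝ) ^ m = (1 / (D : ℝ) * X) ^ m / 2 := by
        rw [mul_pow]
        ring
    _ ≤ (2 * (Y : ℝ) + 1) ^ m / 2 := by
        apply div_le_div_of_nonneg_right _ (by norm_num)
        exact pow_le_pow_left₀ (by positivity) h4 m

end Pool.Agent.W625.NC
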