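import Pool.Agent.W625.NC.Stm

/-!
# The bound for all cells on an affine plane (project NC, task CELLS, helper947)
-/

set_option autoImplicit false

namespace Pool.Agent.W625.NC

open Finset Pool.Agent.H785R2.ABC Pool.Agent.H705R2.ABC

namespace CellsAux

/-- exponent of `rd` to the base `Z` -/
noncomputable def vZ (K Z : ℕ) (s : ℕ × ℕ × ℕ) (j : Fin 3) (i : Fin (K + 1)) : ℝ :=
  Real.log (rd K (num s j) {i}) / Real.log Z

/-- exponent of `part` to the base `Z` -/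
noncomputable def wZ (K Z : ℕ) (s : ℕ × ℕ × ℕ) (j : Fin 3) (i : Fin (K + 1)) : ℝ :=
  Real.log (part K (num s j) {i}) / Real.log Z

lemma rpow_log_div {c x : ℝ} (hc : 1 < c) (hx : 0 < x) : c ^ (Real.log x / Real.log c) = x := by
  have hl : 0 < Real.log c := Real.log_pos hc
  rw [Real.rpow_def_of_pos (by linarith), mul_div_cancel₀ _ hl.ne', Real.exp_log hx]

lemma rd_eq (hF : Basics) (K : ℕ) {Z : ℕ} (hZ : 2 ≤ Z) (s : ℕ × ℕ × ℕ) (j : Fin 3)
    (S : Finset (Fin (K + 1))) :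
    (rd K (num s j) S : ℝ) = (Z : ℝ) ^ cost (vZ K Z s) j S := by
  have hc : (2 : ℝ) ≤ Z := by exact_mod_cast hZ
  rw [cost, Real.rpow_sum_of_pos (by linarith), hF.rd_prod K (num s j) S, Nat.cast_prod]
  refine Finset.prod_congr rfl fun i _ => ?_
  rw [vZ, rpow_log_div (by linarith)]
  exact_mod_cast hF.rd_pos K (num s j) {i}

lemma part_eq (hF : Basics) (K : ℕ) {Z : ℕ} (hZ : 2 ≤ Z) (s : ℕ × ℕ × ℕ) (j : Fin 3)
    (S : Finset (Fin (K + 1))) :
    (part K (num s j) S : ℝ) = (Z : ℝ) ^ cost (wZ K Z s) j S := by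
  have hc : (2 : ℝ) ≤ Z := by exact_mod_cast hZ
  rw [cost, Real.rpow_sum_of_pos (by linarith), hF.part_prod K (num s j) S, Nat.cast_prod]
  refine Finset.prod_congr rfl fun i _ => ?_
  rw [wZ, rpow_log_div (by linarith)]
  exact_mod_cast hF.part_pos K (num s j) {i}

lemma cost_vZ (hF : Basics) (K Z : ℕ) (s : ℕ × ℕ × ℕ) (j : Fin 3) :
    cost (vZ K Z s) j univ = Real.log (rad (num s j)) / Real.log Z := by
  unfold cost vZ
  rw [← Finset.sum_div]
  congr 1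
  rw [← hF.rd_univ K (num s j), hF.rd_prod K (num s j) univ]
  push_cast
  rw [Real.log_prod]
  intro i _
  have := hF.rd_pos K (num s j) {i}
  positivity

lemma cost_wZ (hF : Basics) (K Z : ℕ) (s : ℕ × ℕ × ℕ) (j : Fin 3) (hj : 1 ≤ num s j) :
    cost (wZ K Z s) j univ = Real.log (num s j) / Real.log Z := by
  unfold cost wZ
  rw [← Finset.sum_div]
  congr 1
  conv_rhs => rw [← hF.part_univ K (num s j) hj, hF.part_prod K (num s j) univ]
  push_cast
  rw [Real.log_prod]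
  intro i _
  have := hF.part_pos K (num s j) {i}
  positivity

lemma rad_pos (n : ℕ) : 0 < rad n :=
  Finset.prod_pos fun _ hp => (Nat.prime_of_mem_primeFactors hp).pos

lemma poly (hF : Basics) (K : ℕ) {Z m : ℕ} (hZ : 2 ≤ Z) (hm : 1 ≤ m) (s : ℕ × ℕ × ℕ)
    (hpos : ∀ j, 1 ≤ num s j) (hle : ∀ j, num s j ≤ Z) (h1 : Z ≤ m * num s 1)
    (h2 : Z ≤ m * num s 2) (lam : ℝ)
    (hlam : Real.log ((rad (num s 0) * rad (num s 1) * rad (num s 2) : ℕ) : ℝ) / Real.log Z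
      ≤ lam) :
    Poly K lam (Real.log m / Real.log Z) (vZ K Z s) (wZ K Z s) := by
  have hc2 : (2 : ℝ) ≤ Z := by exact_mod_cast hZ
  have hL : 0 < Real.log Z := Real.log_pos (by linarith)
  have hZR : (0 : ℝ) < Z := by linarith
  have hmR : (0 : ℝ) < m := by exact_mod_cast hm
  have hw : ∀ j, cost (wZ K Z s) j univ ≤ 1 := by
    intro j
    rw [cost_wZ hF K Z s j (hpos j), div_le_one hL]
    exact Real.log_le_log (by exact_mod_cast hpos j) (by exact_mod_cast hle j)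
  have hw' : ∀ j, Z ≤ m * num s j →
      1 - Real.log m / Real.log Z ≤ cost (wZ K Z s) j univ := by
    intro j hj
    have hn : (0 : ℝ) < num s j := by exact_mod_cast hpos j
    rw [cost_wZ hF K Z s j (hpos j)]
    have h3 : Real.log Z ≤ Real.log m + Real.log (num s j) := by
      rw [← Real.log_mul hmR.ne' hn.ne']
      apply Real.log_le_log hZR
      exact_mod_cast hj
    rw [sub_le_iff_le_add, ← add_div, le_div_iff₀ hL]
    linarith
  refine ⟨?_, ?_, ?_, hw 0, hw 1, hw' 1 h1, hw 2, hw' 2 h2, ?_⟩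
  · intro j i
    unfold vZ
    apply div_nonneg _ hL.le
    apply Real.log_nonneg
    exact_mod_cast hF.rd_pos K _ _
  · intro j i hi
    unfold vZ wZ
    rw [hF.part_single K _ i hi]
    push_cast
    rw [Real.log_pow]
    push_cast
    ring
  · intro j
    unfold vZ wZ
    rw [← mul_div_assoc]
    apply div_le_div_of_nonneg_right _ hL.le
    have h1 := hF.part_last K (num s j)
    have h2 := hF.rd_pos K (num s j) {Fin.last K}
    have h3 : ((rd K (num s j) {Fin.last K} : ℕ) : ℝ) ^ (K + 1) ≤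
        (part K (num s j) {Fin.last K} : ℕ) := by exact_mod_cast h1
    have h4 := Real.log_le_log (by positivity) h3
    rw [Real.log_pow] at h4
    push_cast at h4
    exact h4
  · rw [cost_vZ hF, cost_vZ hF, cost_vZ hF, ← add_div, ← add_div]
    refine le_trans (le_of_eq ?_) hlam
    have raR : (rad (num s 0) : ℝ) ≠ 0 := by exact_mod_cast (rad_pos _).ne'
    have rbR : (rad (num s 1) : ℝ) ≠ 0 := by exact_mod_cast (rad_pos _).ne'
    have rcR : (rad (num s 2) : ℝ) ≠ 0 := by exact_mod_cast (rad_pos _).ne'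
    rw [← Real.log_mul raR rbR, ← Real.log_mul (mul_ne_zero raR rbR) rcR]
    push_cast
    rfl

/-- one side of the bound `EST` -/
lemma side_le (hF : Basics) (K : ℕ) {Z : ℕ} (hZ : 2 ≤ Z) (s : ℕ × ℕ × ℕ)
    (r j : Fin 3) (F : Finset (Fin (K + 1))) :
    side K s r j F ≤ 2 * (Z : ℝ) ^ (cost (vZ K Z s) j univ + vZ K Z s j (Fin.last K) +
      max 0 (3 / 2 * cost (vZ K Z s) j univ - cost (wZ K Z s) r F)) := by
  have hc2 : (2 : ℝ) ≤ Z := by exact_mod_cast hZ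
  have hc : (0 : ℝ) < Z := by linarith
  have hc1 : (1 : ℝ) ≤ Z := by linarith
  have h1 : (rd K (num s j) {Fin.last K} : ℝ) = (Z : ℝ) ^ vZ K Z s j (Fin.last K) := by
    rw [rd_eq hF K hZ]
    simp [cost]
  unfold side
  rw [h1, rd_eq hF K hZ s j univ, part_eq hF K hZ s r F, ← Real.rpow_mul hc.le,
    ← Real.rpow_sub hc, Real.rpow_add hc, Real.rpow_add hc]
  have e1 : (Z : ℝ) ^ (cost (vZ K Z s) j univ * (3 / 2) - cost (wZ K Z s) r F) ≤
      (Z : ℝ) ^ (max 0 (3 / 2 * cost (vZ K Z s) j univ - cost (wZ K Z s) r F)) := by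
    apply Real.rpow_le_rpow_of_exponent_le hc1
    rw [mul_comm]
    exact le_max_right _ _
  have e2 : (1 : ℝ) ≤
      (Z : ℝ) ^ (max 0 (3 / 2 * cost (vZ K Z s) j univ - cost (wZ K Z s) r F)) :=
    Real.one_le_rpow hc1 (le_max_left _ _)
  have e3 : 0 ≤ (Z : ℝ) ^ cost (vZ K Z s) j univ * (Z : ℝ) ^ vZ K Z s j (Fin.last K) := by
    positivity
  calc (Z : ℝ) ^ cost (vZ K Z s) j univ * (Z : ℝ) ^ vZ K Z s j (Fin.last K) *
        (1 + (Z : ℝ) ^ (cost (vZ K Z s) j univ * (3 / 2) - cost (wZ K Z s) r F))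
      ≤ (Z : ℝ) ^ cost (vZ K Z s) j univ * (Z : ℝ) ^ vZ K Z s j (Fin.last K) *
        (2 * (Z : ℝ) ^ (max 0 (3 / 2 * cost (vZ K Z s) j univ - cost (wZ K Z s) r F))) := by
        apply mul_le_mul_of_nonneg_left _ e3
        linarith
    _ = _ := by ring

lemma side_nonneg (K : ℕ) (s : ℕ × ℕ × ℕ) (r j : Fin 3) (F : Finset (Fin (K + 1))) :
    0 ≤ side K s r j F := by
  unfold side
  positivity

lemma fin_bound (hF : Basics) (K : ℕ) {Z m : ℕ} (hZ : 2 ≤ Z) (s : ℕ × ℕ × ℕ)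
    (T : Finset (ℕ × ℕ × ℕ)) (ε θ C D₁ D₂ D₃ : ℝ) (hD₁ : 0 < D₁) (hD₂ : 0 < D₂) (hD₃ : 0 < D₃)
    (H₁ : ∀ p q : Fin 3, p ≠ q → (T.card : ℝ) ≤ D₁ * (Z : ℝ) ^ ε *
      ((rd K (num s p) univ : ℝ) * rd K (num s q) univ))
    (H₂ : ∀ p q r : Fin 3, p ≠ q → q ≠ r → p ≠ r → ∀ F : Finset (Fin (K + 1)),
      (T.card : ℝ) ≤ D₂ * (Z : ℝ) ^ ε * (rd K (num s r) F : ℝ) *
        (side K s r p F * side K s r q F) ^ ((1 : ℝ) / 2))
    (H₃ : ∀ p q r : Fin 3, p ≠ q → q ≠ r → p ≠ r → ∀ i : Fin (K + 1), 1 ≤ (i : ℕ) →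
      (i : ℕ) < K → (T.card : ℝ) ≤ D₃ * (Z : ℝ) ^ ε *
      ((rd K (num s p) {i}ᶜ : ℝ) * rd K (num s q) univ +
        ((rd K (num s p) {i}ᶜ : ℝ) * rd K (num s q) univ) ^ ((1 : ℝ) / 2) *
          rd K (num s r) univ))
    (hdisj : (∃ p q : Fin 3, p ≠ q ∧ cost (vZ K Z s) p univ + cost (vZ K Z s) q univ ≤
        θ + C * (Real.log m / Real.log Z)) ∨
    (∃ p q r : Fin 3, p ≠ q ∧ q ≠ r ∧ p ≠ r ∧ ∃ F : Finset (Fin (K + 1)),
      cost (vZ K Z s) r F + (1 / 2) * ((cost (vZ K Z s) p univ + vZ K Z s p (Fin.last K) +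
          max 0 (3 / 2 * cost (vZ K Z s) p univ - cost (wZ K Z s) r F)) +
        (cost (vZ K Z s) q univ + vZ K Z s q (Fin.last K) +
          max 0 (3 / 2 * cost (vZ K Z s) q univ - cost (wZ K Z s) r F))) ≤
            θ + 1 / (K + 1) + C * (Real.log m / Real.log Z)) ∨
    (∃ p q r : Fin 3, p ≠ q ∧ q ≠ r ∧ p ≠ r ∧ ∃ i : Fin (K + 1), 1 ≤ (i : ℕ) ∧ (i : ℕ) < K ∧
      cost (vZ K Z s) p {i}ᶜ + cost (vZ K Z s) q univ ≤ θ + C * (Real.log m / Real.log Z) ∧
      (1 / 2) * (cost (vZ K Z s) p {i}ᶜ + cost (vZ K Z s) q univ) + cost (vZ K Z s) r univ ≤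
        θ + C * (Real.log m / Real.log Z))) :
    (T.card : ℝ) ≤ 2 * (D₁ + D₂ + D₃) * Real.exp (C * Real.log m) *
      (Z : ℝ) ^ (θ + 1 / ((K : ℝ) + 1) + ε) := by
  have hc2 : (2 : ℝ) ≤ Z := by exact_mod_cast hZ
  have hc : (0 : ℝ) < Z := by linarith
  have hc1 : (1 : ℝ) ≤ Z := by linarith
  have hlog : 0 < Real.log Z := Real.log_pos (by linarith)
  have hEx : 0 < Real.exp (C * Real.log m) := Real.exp_pos _
  set B : ℝ := Real.exp (C * Real.log m) * (Z : ℝ) ^ (θ + 1 / ((K : ℝ) + 1)) with hB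
  have hB0 : 0 < B := mul_pos hEx (Real.rpow_pos_of_pos hc _)
  have hpw : ∀ x : ℝ, x ≤ θ + 1 / ((K : ℝ) + 1) + C * (Real.log m / Real.log Z) →
      (Z : ℝ) ^ x ≤ B := by
    intro x hx
    calc (Z : ℝ) ^ x ≤
        (Z : ℝ) ^ ((θ + 1 / ((K : ℝ) + 1)) + C * (Real.log m / Real.log Z)) :=
          Real.rpow_le_rpow_of_exponent_le hc1 (by linarith)
      _ = B := by
          rw [Real.rpow_add hc, mul_comm, hB]
          congr 1
          rw [Real.rpow_def_of_pos hc]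
          congr 1
          field_simp
  have hpw' : ∀ x : ℝ, x ≤ θ + C * (Real.log m / Real.log Z) →
      (Z : ℝ) ^ x ≤ B := by
    intro x hx
    apply hpw
    have : 0 ≤ 1 / ((K : ℝ) + 1) := by positivity
    linarith
  have hcε : 0 < (Z : ℝ) ^ ε := Real.rpow_pos_of_pos hc _
  have hfin : ∀ D : ℝ, 0 < D → D ≤ D₁ + D₂ + D₃ → ∀ y : ℝ, y ≤ 2 * B →
      (T.card : ℝ) ≤ D * (Z : ℝ) ^ ε * y →
      (T.card : ℝ) ≤ 2 * (D₁ + D₂ + D₃) * Real.exp (C * Real.log m) *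
        (Z : ℝ) ^ (θ + 1 / ((K : ℝ) + 1) + ε) := by
    intro D hD0 hDle y hy hcard
    calc (T.card : ℝ) ≤ D * (Z : ℝ) ^ ε * y := hcard
      _ ≤ D * (Z : ℝ) ^ ε * (2 * B) :=
          mul_le_mul_of_nonneg_left hy (by positivity)
      _ ≤ (D₁ + D₂ + D₃) * (Z : ℝ) ^ ε * (2 * B) := by
          apply mul_le_mul_of_nonneg_right _ (by positivity)
          exact mul_le_mul_of_nonneg_right hDle hcε.le
      _ = 2 * (D₁ + D₂ + D₃) * Real.exp (C * Real.log m) *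
        (Z : ℝ) ^ (θ + 1 / ((K : ℝ) + 1) + ε) := by
          rw [Real.rpow_add hc (θ + 1 / ((K : ℝ) + 1)) ε, hB]
          ring
  rcases hdisj with
    ⟨p, q, hpq, hb⟩ | ⟨p, q, r, h1, h2, h3, F, hb⟩ | ⟨p, q, r, h1, h2, h3, i, hi1, hi2, hb1, hb2⟩
  · refine hfin D₁ hD₁ (by linarith) _ ?_ (H₁ p q hpq)
    rw [rd_eq hF K hZ, rd_eq hF K hZ, ← Real.rpow_add hc]
    have := hpw' _ hb
    linarith
  · have hbound := H₂ p q r h1 h2 h3 F
    rw [mul_assoc (D₂ * (Z : ℝ) ^ ε)] at hbound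
    refine hfin D₂ hD₂ (by linarith) _ ?_ hbound
    set ap : ℝ := cost (vZ K Z s) p univ + vZ K Z s p (Fin.last K) +
      max 0 (3 / 2 * cost (vZ K Z s) p univ - cost (wZ K Z s) r F) with hap
    set aq : ℝ := cost (vZ K Z s) q univ + vZ K Z s q (Fin.last K) +
      max 0 (3 / 2 * cost (vZ K Z s) q univ - cost (wZ K Z s) r F) with haq
    have e1 : (side K s r p F * side K s r q F) ^ ((1 : ℝ) / 2) ≤
        2 * (Z : ℝ) ^ ((1 / 2) * (ap + aq)) := by
      calc (side K s r p F * side K s r q F) ^ ((1 : ℝ) / 2) ≤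
          ((2 * (Z : ℝ) ^ ap) * (2 * (Z : ℝ) ^ aq)) ^ ((1 : ℝ) / 2) := by
            apply Real.rpow_le_rpow (mul_nonneg (side_nonneg _ _ _ _ _) (side_nonneg _ _ _ _ _))
              _ (by norm_num)
            exact mul_le_mul (side_le hF K hZ s r p F) (side_le hF K hZ s r q F)
              (side_nonneg _ _ _ _ _) (by positivity)
        _ = (2 ^ 2 * (Z : ℝ) ^ (ap + aq)) ^ ((1 : ℝ) / 2) := by
            rw [Real.rpow_add hc ap aq]
            congr 1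
            ring
        _ = 2 * (Z : ℝ) ^ ((1 / 2) * (ap + aq)) := by
            have e4 : ((2 : ℝ) ^ 2) ^ ((1 : ℝ) / 2) = 2 := by
              rw [← Real.sqrt_eq_rpow, Real.sqrt_sq (by norm_num)]
            rw [Real.mul_rpow (by positivity) (by positivity), ← Real.rpow_mul hc.le, e4,
              mul_comm (ap + aq)]
    calc (rd K (num s r) F : ℝ) * (side K s r p F * side K s r q F) ^ ((1 : ℝ) / 2) ≤
        (rd K (num s r) F : ℝ) * (2 * (Z : ℝ) ^ ((1 / 2) * (ap + aq))) :=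
          mul_le_mul_of_nonneg_left e1 (by positivity)
      _ = 2 * (Z : ℝ) ^ (cost (vZ K Z s) r F + (1 / 2) * (ap + aq)) := by
          rw [rd_eq hF K hZ, Real.rpow_add hc]
          ring
      _ ≤ 2 * B := by
          have := hpw _ hb
          linarith
  · refine hfin D₃ hD₃ (by linarith) _ ?_ (H₃ p q r h1 h2 h3 i hi1 hi2)
    rw [rd_eq hF K hZ, rd_eq hF K hZ, rd_eq hF K hZ, ← Real.rpow_add hc, ← Real.rpow_mul hc.le,
      ← Real.rpow_add hc]
    have f1 := hpw' _ hb1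
    have f2 := hpw' _ hb2
    have e : (cost (vZ K Z s) p {i}ᶜ + cost (vZ K Z s) q univ) * (1 / 2) +
        cost (vZ K Z s) r univ =
        (1 / 2) * (cost (vZ K Z s) p {i}ᶜ + cost (vZ K Z s) q univ) +
          cost (vZ K Z s) r univ := by
      ring
    rw [e]
    linarith

end CellsAux

open CellsAux

theorem hCells_of (hF : Basics) (hTr : HTr) (hEst : HEst) (hDc : HDc) (hNum : StmtNum) :
    HCells := by
  intro ε hε m hm
  set N : ℕ := ⌈4 / ε⌉₊ with hN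
  have hN1 : 4 / ε ≤ (N : ℝ) := Nat.le_ceil _
  have hNpos : (0 : ℝ) < N := lt_of_lt_of_le (by positivity) hN1
  have hN0 : 1 ≤ N := by exact_mod_cast hNpos
  have hNε : 1 / (N : ℝ) ≤ ε / 4 := by
    rw [div_le_iff₀ hε] at hN1
    rw [div_le_div_iff₀ hNpos (by norm_num)]
    linarith
  have hex : ∀ k : ℕ, ∃ (K₀ : ℕ) (C : ℝ), 0 ≤ C ∧ (1 ≤ k → k ≤ N → ∀ K : ℕ, K₀ ≤ K →
    ∀ (δ : ℝ) (v w : Fin 3 → Fin (K + 1) → ℝ), 0 ≤ δ → Poly K (9 / 10 * k / N) δ v w →
    (∃ p q : Fin 3, p ≠ q ∧ cost v p univ + cost v q univ ≤ 4 * (9 / 10 * k / N) / 7 + C * δ) ∨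
    (∃ p q r : Fin 3, p ≠ q ∧ q ≠ r ∧ p ≠ r ∧ ∃ F : Finset (Fin (K + 1)),
      cost v r F + (1 / 2) * ((cost v p univ + v p (Fin.last K) +
          max 0 (3 / 2 * cost v p univ - cost w r F)) +
        (cost v q univ + v q (Fin.last K) +
          max 0 (3 / 2 * cost v q univ - cost w r F))) ≤
            4 * (9 / 10 * k / N) / 7 + 1 / (K + 1) + C * δ) ∨
    (∃ p q r : Fin 3, p ≠ q ∧ q ≠ r ∧ p ≠ r ∧ ∃ i : Fin (K + 1), 1 ≤ (i : ℕ) ∧ (i : ℕ) < K ∧
      cost v p {i}ᶜ + cost v q univ ≤ 4 * (9 / 10 * k / N) / 7 + C * δ ∧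
      (1 / 2) * (cost v p {i}ᶜ + cost v q univ) + cost v r univ ≤
        4 * (9 / 10 * k / N) / 7 + C * δ)) := by
    intro k
    by_cases hk : 1 ≤ k ∧ k ≤ N
    · have hkR : (1 : ℝ) ≤ k := by exact_mod_cast hk.1
      have hkN : (k : ℝ) ≤ N := by exact_mod_cast hk.2
      obtain ⟨K₀, C, hC, h⟩ := hNum (9 / 10 * k / N) (by positivity) (by
        rw [div_le_iff₀ hNpos]
        linarith)
      exact ⟨K₀, C, hC, fun _ _ => h⟩
    · exact ⟨0, 0, le_rfl, fun h1 h2 => absurd ⟨h1, h2⟩ hk⟩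
  choose K₀ C hC hnum using hex
  set K : ℕ := max ((Finset.range (N + 1)).sup K₀) N with hK
  have hKN : N ≤ K := le_max_right _ _
  have hK0 : ∀ k, k ≤ N → K₀ k ≤ K := fun k hk =>
    (Finset.le_sup (f := K₀) (Finset.mem_range.mpr (by omega))).trans (le_max_left _ _)
  have hKε : 1 / ((K : ℝ) + 1) ≤ ε / 4 := by
    have h1 : (N : ℝ) ≤ K := by exact_mod_cast hKN
    refine le_trans ?_ hNε
    apply one_div_le_one_div_of_le hNpos
    linarith
  set Ct : ℝ := ∑ k ∈ Finset.range (N + 1), C k with hCt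
  have hCk : ∀ k, k ≤ N → C k ≤ Ct := fun k hk =>
    Finset.single_le_sum (f := C) (fun i _ => hC i) (Finset.mem_range.mpr (by omega))
  obtain ⟨D₁, hD₁, H₁⟩ := hTr K (ε / 4) (by positivity)
  obtain ⟨D₂, hD₂, H₂⟩ := hEst K (ε / 4) (by positivity)
  obtain ⟨D₃, hD₃, H₃⟩ := hDc K (ε / 4) (by positivity)
  have hmR : (1 : ℝ) ≤ m := by exact_mod_cast hm
  have hlm : 0 ≤ Real.log m := Real.log_nonneg hmR
  refine ⟨K, max 1 (2 * (D₁ + D₂ + D₃) * Real.exp (Ct * Real.log m)),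
    lt_of_lt_of_le one_pos (le_max_left _ _), ?_⟩
  intro σ h Z T hT s hs h1 h2 hR
  have hst := hT.tri s hs
  have hZ1 : 1 ≤ Z := (hst.pos 0).trans (hst.le 0)
  set R : ℝ := ((rad (num s 0) * rad (num s 1) * rad (num s 2) : ℕ) : ℝ) with hRdef
  have hR1 : 1 ≤ R := by
    rw [hRdef]
    have : 0 < rad (num s 0) * rad (num s 1) * rad (num s 2) :=
      Nat.mul_pos (Nat.mul_pos (rad_pos _) (rad_pos _)) (rad_pos _)
    exact_mod_cast this
  have hR0 : 0 < R := by linarith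
  have hRp : 1 ≤ R ^ ((4 : ℝ) / 7) := Real.one_le_rpow hR1 (by norm_num)
  rcases Nat.lt_or_ge Z 2 with hZ | hZ
  · -- Z = 1
    have hZe : Z = 1 := by omega
    have hcard : T.card ≤ 1 := by
      rw [Finset.card_le_one]
      intro a ha b hb
      have h3 : ∀ t ∈ T, t = (1, 1, 1) := by
        intro t ht
        have h4 := hT.tri t ht
        have a0 := h4.pos 0
        have a1 := h4.pos 1
        have a2 := h4.pos 2
        have b0 := h4.le 0
        have b1 := h4.le 1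
        have b2 := h4.le 2
        simp only [num] at a0 a1 a2 b0 b1 b2
        simp at a0 a1 a2 b0 b1 b2
        obtain ⟨x, y, z⟩ := t
        simp only at a0 a1 a2 b0 b1 b2
        simp only [Prod.mk.injEq]
        omega
      rw [h3 a ha, h3 b hb]
    have hcardR : (T.card : ℝ) ≤ 1 := by exact_mod_cast hcard
    have hZr : (Z : ℝ) ^ ε = 1 := by
      rw [hZe]
      simp
    rw [hZr, mul_one]
    calc (T.card : ℝ) ≤ 1 * 1 := by linarith
      _ ≤ _ := mul_le_mul (le_max_left _ _) hRp (by norm_num)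
        (le_trans (by norm_num) (le_max_left _ _))
  · have hc2 : (2 : ℝ) ≤ Z := by exact_mod_cast hZ
    have hc : (0 : ℝ) < Z := by linarith
    have hc1 : (1 : ℝ) ≤ Z := by linarith
    have hlog : 0 < Real.log Z := Real.log_pos (by linarith)
    set lam' : ℝ := Real.log R / Real.log Z with hlam'
    have hl0 : 0 ≤ lam' := div_nonneg (Real.log_nonneg hR1) hlog.le
    have hl9 : lam' ≤ 9 / 10 := by
      rw [hlam', div_le_iff₀ hlog, ← Real.log_rpow hc]
      exact Real.log_le_log hR0 hR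
    have hZl : (Z : ℝ) ^ lam' = R := rpow_log_div (by linarith) hR0
    set k : ℕ := max 1 ⌈lam' * (10 / 9 * N)⌉₊ with hk
    have hk1 : 1 ≤ k := le_max_left _ _
    have hkN : k ≤ N := by
      apply max_le hN0
      rw [Nat.ceil_le]
      calc lam' * (10 / 9 * N) ≤ 9 / 10 * (10 / 9 * N) :=
            mul_le_mul_of_nonneg_right hl9 (by positivity)
        _ = N := by ring
    have hlk : lam' ≤ 9 / 10 * k / N := by
      rw [le_div_iff₀ hNpos]
      have h3 : lam' * (10 / 9 * N) ≤ k :=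
        (Nat.le_ceil _).trans (by exact_mod_cast le_max_right _ _)
      linarith
    have hlk' : 9 / 10 * k / N ≤ lam' + 9 / 10 / N := by
      have h3 : (k : ℝ) ≤ lam' * (10 / 9 * N) + 1 := by
        have h4 : 0 ≤ lam' * (10 / 9 * N) := by positivity
        have h5 := (Nat.ceil_lt_add_one h4).le
        rw [hk]
        push_cast
        exact max_le (by linarith) h5
      rw [div_le_iff₀ hNpos, add_mul, div_mul_cancel₀ _ hNpos.ne']
      linarith
    have hpoly := poly hF K hZ hm s hst.pos hst.le h1 h2 (9 / 10 * k / N) hlk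
    have hδ : 0 ≤ Real.log m / Real.log Z := div_nonneg hlm hlog.le
    have hd := hnum k hk1 hkN K (hK0 k hkN) _ _ _ hδ hpoly
    have hb := fin_bound hF K hZ s T (ε / 4) (4 * (9 / 10 * k / N) / 7) (C k) D₁ D₂ D₃
      hD₁ hD₂ hD₃ (H₁ σ h Z T hT s hs) (H₂ σ h Z T hT s hs) (H₃ σ h Z T hT s hs) hd
    refine hb.trans ?_
    have e1 : Real.exp (C k * Real.log m) ≤ Real.exp (Ct * Real.log m) :=
      Real.exp_le_exp.mpr (mul_le_mul_of_nonneg_right (hCk k hkN) hlm)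
    have e2 : 4 * (9 / 10 * (k : ℝ) / N) / 7 + 1 / ((K : ℝ) + 1) + ε / 4 ≤
        ε + lam' * (4 / 7) := by
      have e3 : 4 * (9 / 10 * (k : ℝ) / N) / 7 ≤ 4 * (lam' + 9 / 10 / N) / 7 := by linarith
      have e4 : 9 / 10 / (N : ℝ) = 9 / 10 * (1 / N) := by ring
      rw [e4] at e3
      linarith
    have e5 : (Z : ℝ) ^ (4 * (9 / 10 * (k : ℝ) / N) / 7 + 1 / ((K : ℝ) + 1) + ε / 4) ≤
        (Z : ℝ) ^ ε * R ^ ((4 : ℝ) / 7) := by
      calc _ ≤ (Z : ℝ) ^ (ε + lam' * (4 / 7)) := Real.rpow_le_rpow_of_exponent_le hc1 e2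
        _ = (Z : ℝ) ^ ε * R ^ ((4 : ℝ) / 7) := by
          rw [Real.rpow_add hc, Real.rpow_mul hc.le, hZl]
    have e6 : 0 < 2 * (D₁ + D₂ + D₃) := by positivity
    calc 2 * (D₁ + D₂ + D₃) * Real.exp (C k * Real.log m) *
        (Z : ℝ) ^ (4 * (9 / 10 * (k : ℝ) / N) / 7 + 1 / ((K : ℝ) + 1) + ε / 4)
        ≤ max 1 (2 * (D₁ + D₂ + D₃) * Real.exp (Ct * Real.log m)) *
          ((Z : ℝ) ^ ε * R ^ ((4 : ℝ) / 7)) := by
          apply mul_le_mul _ e5 (Real.rpow_nonneg hc.le _)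
            (le_trans zero_le_one (le_max_left _ _))
          exact (mul_le_mul_of_nonneg_left e1 e6.le).trans (le_max_right _ _)
      _ = _ := by ring

end Pool.Agent.W625.NC
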