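import Pool.Agent.W625.NC.Stm
import Pool.Agent.H785R2.ABC.Final

/-!
# Project NC: the count from the bound for cells
-/

set_option autoImplicit false

namespace Pool.Agent.W625.NC

open Finset Pool.Agent.H785R2.ABC Pool.Agent.H785R2.ABC.Fin1 Pool.Agent.H705R2.ABC

namespace FinNC

lemma hcell_of (hF : Basics) (K : ℕ) (σ : Fin 3 → ℤ) (hσ : ∀ j, σ j = 1 ∨ σ j = -1) (h : ℤ) (Z : ℕ)
    (T : Finset (ℕ × ℕ × ℕ)) (htri : ∀ s ∈ T, HTri σ h Z s)
    (hsg : ∀ s ∈ T, ∀ s' ∈ T, sg K s = sg K s') : HCell K σ h Z T := by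
  have hpow : ∀ S : Finset (Fin (K + 1)), 2 ^ S.card ≤ 2 ^ (K + 1) := by
    intro S
    apply Nat.pow_le_pow_right (by norm_num)
    have := S.card_le_univ
    simpa using this
  refine ⟨hσ, htri, ?_, ?_⟩
  · intro s hs s' hs' j S
    have h := hsg s hs s' hs'
    rw [hF.rd_prod K (num s j) S, hF.rd_prod K (num s' j) S]
    calc ∏ i ∈ S, rd K (num s j) {i} ≤ ∏ i ∈ S, 2 * rd K (num s' j) {i} := by
          apply Finset.prod_le_prod'
          intro i _
          have e : Nat.log 2 (rd K (num s j) {i}) = Nat.log 2 (rd K (num s' j) {i}) :=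
            congrArg Prod.fst (congrFun (congrFun h j) i)
          exact log_eq_le _ _ (hF.rd_pos K _ _) e
      _ = 2 ^ S.card * ∏ i ∈ S, rd K (num s' j) {i} := by
          rw [Finset.prod_mul_distrib, Finset.prod_const]
      _ ≤ _ := Nat.mul_le_mul_right _ (hpow S)
  · intro s hs s' hs' j S
    have h := hsg s hs s' hs'
    rw [hF.part_prod K (num s j) S, hF.part_prod K (num s' j) S]
    calc ∏ i ∈ S, part K (num s j) {i} ≤ ∏ i ∈ S, 2 * part K (num s' j) {i} := by
          apply Finset.prod_le_prod'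
          intro i _
          have e0 : (sg K s j i).2 = (sg K s' j i).2 := by rw [h]
          have e : Nat.log 2 (part K (num s j) {i}) = Nat.log 2 (part K (num s' j) {i}) := e0
          exact log_eq_le _ _ (hF.part_pos K _ _) e
      _ = 2 ^ S.card * ∏ i ∈ S, part K (num s' j) {i} := by
          rw [Finset.prod_mul_distrib, Finset.prod_const]
      _ ≤ _ := Nat.mul_le_mul_right _ (hpow S)

end FinNC

open FinNC

theorem hCount_of (hF : Basics) (h : HCells) : HCount := by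
  classical
  intro ε hε m hm
  obtain ⟨K, D, hD, hcell⟩ := h (ε / 2) (by positivity) m hm
  set M : ℕ := 2 * ((K + 1) * 3) with hM
  have hMpos : (0 : ℝ) < M := by
    rw [hM]; positivity
  set η : ℝ := ε / 2 / M with hη
  have hηpos : 0 < η := by rw [hη]; positivity
  refine ⟨(1 + 2 / η) ^ M * D, by positivity, ?_⟩
  intro σ hσ h0 Z R T hZ hR hT
  have hZ' : (1 : ℝ) ≤ Z := by exact_mod_cast hZ
  have hZp : (0 : ℝ) < Z := by linarith
  set L := Nat.log 2 Z with hL
  -- one class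
  have hclass : ∀ T' : Finset (ℕ × ℕ × ℕ), T' ⊆ T → (∀ s ∈ T', ∀ s' ∈ T', sg K s = sg K s') →
      (T'.card : ℝ) ≤ D * (Z : ℝ) ^ (ε / 2) * R ^ ((4 : ℝ) / 7) := by
    intro T' hT' hsg
    rcases T'.eq_empty_or_nonempty with h1 | ⟨s, hs⟩
    · subst h1
      simp only [card_empty, Nat.cast_zero]
      positivity
    · have h2 := hT s (hT' hs)
      have hc := hcell_of hF K σ hσ h0 Z T' (fun s hs => (hT s (hT' hs)).1) hsg
      refine (hcell σ h0 Z T' hc s hs h2.2.1 h2.2.2.1 h2.2.2.2.1).trans ?_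
      refine mul_le_mul_of_nonneg_left ?_ (by positivity)
      exact Real.rpow_le_rpow (Nat.cast_nonneg _) h2.2.2.2.2 (by norm_num)
  -- signatures
  have hsgle : ∀ t ∈ T, ∀ j i, (sg K t j i).1 ≤ L ∧ (sg K t j i).2 ≤ L := by
    intro t ht j i
    have h1 := (hT t ht).1
    have hn := h1.pos j
    have hnX : num t j ≤ Z := h1.le j
    constructor
    · change Nat.log 2 (rd K (num t j) {i}) ≤ Nat.log 2 Z
      apply Nat.log_mono_right
      have e1 : rd K (num t j) {i} ∣ rad (num t j) := by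
        rw [← hF.rd_univ K (num t j)]
        exact hF.rd_dvd K _ _ _ (subset_univ _)
      have e2 : rad (num t j) ∣ num t j := Nat.prod_primeFactors_dvd _
      exact (Nat.le_of_dvd hn (e1.trans e2)).trans hnX
    · change Nat.log 2 (part K (num t j) {i}) ≤ Nat.log 2 Z
      apply Nat.log_mono_right
      exact (Nat.le_of_dvd hn (hF.part_dvd K _ _ hn)).trans hnX
  set sgF : (ℕ × ℕ × ℕ) → (Fin 3 → Fin (K + 1) → Fin (L + 1) × Fin (L + 1)) := fun t j i =>
    (Fin.ofNat (L + 1) (sg K t j i).1, Fin.ofNat (L + 1) (sg K t j i).2) with hsgF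
  have hinj : ∀ t ∈ T, ∀ t' ∈ T, sgF t = sgF t' → sg K t = sg K t' := by
    intro t ht t' ht' h
    funext j i
    have h1 := congrFun (congrFun h j) i
    simp only [hsgF, Prod.mk.injEq] at h1
    have a1 := hsgle t ht j i
    have a2 := hsgle t' ht' j i
    have b1 := congrArg Fin.val h1.1
    have b2 := congrArg Fin.val h1.2
    simp only [Fin.ofNat] at b1 b2
    rw [Nat.mod_eq_of_lt (by omega), Nat.mod_eq_of_lt (by omega)] at b1 b2
    exact Prod.ext b1 b2
  have hTcard : (T.card : ℝ) ≤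
      ((L + 1 : ℕ) : ℝ) ^ M * (D * (Z : ℝ) ^ (ε / 2) * R ^ ((4 : ℝ) / 7)) := by
    have h1 := card_eq_sum_card_fiberwise (f := sgF) (s := T) (t := univ)
      (fun _ _ => mem_coe.2 (mem_univ _))
    rw [h1]
    push_cast
    calc ∑ τ : (Fin 3 → Fin (K + 1) → Fin (L + 1) × Fin (L + 1)),
          ((T.filter (fun t => sgF t = τ)).card : ℝ)
        ≤ ∑ τ : (Fin 3 → Fin (K + 1) → Fin (L + 1) × Fin (L + 1)),
            D * (Z : ℝ) ^ (ε / 2) * R ^ ((4 : ℝ) / 7) := by
          apply sum_le_sum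
          intro τ _
          apply hclass _ (filter_subset _ _)
          intro s hs s' hs'
          rw [mem_filter] at hs hs'
          exact hinj s hs.1 s' hs'.1 (hs.2.trans hs'.2.symm)
      _ = _ := by
          rw [sum_const, nsmul_eq_mul, card_univ]
          congr 1
          simp only [Fintype.card_fun, Fintype.card_prod, Fintype.card_fin]
          have e3 : ((L + 1) * (L + 1)) = (L + 1) ^ 2 := by ring
          rw [e3, ← pow_mul, ← pow_mul, Nat.cast_pow]
          rw [← hM]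
          push_cast
          rfl
  have hLb := log_le Z hZ η hηpos
  have hLm : ((L + 1 : ℕ) : ℝ) ^ M ≤ (1 + 2 / η) ^ M * (Z : ℝ) ^ (ε / 2) := by
    calc ((L + 1 : ℕ) : ℝ) ^ M ≤ ((1 + 2 / η) * (Z : ℝ) ^ η) ^ M :=
          pow_le_pow_left₀ (Nat.cast_nonneg _) hLb M
      _ = (1 + 2 / η) ^ M * (Z : ℝ) ^ (ε / 2) := by
          rw [mul_pow]
          congr 1
          rw [← Real.rpow_natCast, ← Real.rpow_mul hZp.le]
          congr 1
          rw [hη]; field_simp
  calc (T.card : ℝ) ≤ ((L + 1 : ℕ) : ℝ) ^ M * (D * (Z : ℝ) ^ (ε / 2) * R ^ ((4 : ℝ) / 7)) := hTcard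
    _ ≤ ((1 + 2 / η) ^ M * (Z : ℝ) ^ (ε / 2)) * (D * (Z : ℝ) ^ (ε / 2) * R ^ ((4 : ℝ) / 7)) :=
        mul_le_mul_of_nonneg_right hLm (by positivity)
    _ = (1 + 2 / η) ^ M * D * (Z : ℝ) ^ ε * R ^ ((4 : ℝ) / 7) := by
        have : (Z : ℝ) ^ ε = (Z : ℝ) ^ (ε / 2) * (Z : ℝ) ^ (ε / 2) := by
          rw [← Real.rpow_add hZp]; congr 1; ring
        rw [this]; ring

end Pool.Agent.W625.NC
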