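import Mathlib
import Pool.Agent.W625.NC.Stm

/-!
# Module TR for the n-conjecture project (helper625)
-/

set_option autoImplicit false

namespace Pool.Agent.W625.NC

open Finset Pool.Agent.H785R2.ABC Pool.Agent.H705R2.ABC

namespace TrPf

theorem num_ext {t t' : ℕ × ℕ × ℕ} (h0 : num t 0 = num t' 0) (h1 : num t 1 = num t' 1)
    (h2 : num t 2 = num t' 2) : t = t' := by
  simp [num] at h0 h1 h2
  exact Prod.ext h0 (Prod.ext h1 h2)

theorem inj3 {σ : Fin 3 → ℤ} {h : ℤ} {Z : ℕ} (hσ : ∀ j, σ j = 1 ∨ σ j = -1)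
    {t t' : ℕ × ℕ × ℕ} (ht : HTri σ h Z t) (ht' : HTri σ h Z t') {p q : Fin 3} (hpq : p ≠ q)
    (h1 : num t p = num t' p) (h2 : num t q = num t' q) : t = t' := by
  have e1 := ht.lin
  have e2 := ht'.lin
  have s0 := hσ 0
  have s1 := hσ 1
  have s2 := hσ 2
  fin_cases p <;> fin_cases q
  · exact absurd rfl hpq
  · change num t 0 = num t' 0 at h1
    change num t 1 = num t' 1 at h2
    refine num_ext h1 h2 ?_
    rw [h1, h2] at e1
    rcases s2 with s | s <;> rw [s] at e1 e2 <;> omega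
  · change num t 0 = num t' 0 at h1
    change num t 2 = num t' 2 at h2
    refine num_ext h1 ?_ h2
    rw [h1, h2] at e1
    rcases s1 with s | s <;> rw [s] at e1 e2 <;> omega
  · change num t 1 = num t' 1 at h1
    change num t 0 = num t' 0 at h2
    refine num_ext h2 h1 ?_
    rw [h1, h2] at e1
    rcases s2 with s | s <;> rw [s] at e1 e2 <;> omega
  · exact absurd rfl hpq
  · change num t 1 = num t' 1 at h1
    change num t 2 = num t' 2 at h2
    refine num_ext ?_ h1 h2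
    rw [h1, h2] at e1
    rcases s0 with s | s <;> rw [s] at e1 e2 <;> omega
  · change num t 2 = num t' 2 at h1
    change num t 0 = num t' 0 at h2
    refine num_ext h2 ?_ h1
    rw [h1, h2] at e1
    rcases s1 with s | s <;> rw [s] at e1 e2 <;> omega
  · change num t 2 = num t' 2 at h1
    change num t 1 = num t' 1 at h2
    refine num_ext ?_ h2 h1
    rw [h1, h2] at e1
    rcases s0 with s | s <;> rw [s] at e1 e2 <;> omega
  · exact absurd rfl hpq

end TrPf

theorem hTr_of (hF : Basics) (hA4 : StmtA4) : HTr := by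
  classical
  intro K ε hε
  obtain ⟨D4, hD4, h4⟩ := hA4 (ε / 2) (by linarith)
  refine ⟨(D4 * 2 ^ (K + 1)) ^ 2, by positivity, ?_⟩
  intro σ h Z T hT s hs p q hpq
  have hZ : 1 ≤ Z := ((hT.tri s hs).pos 0).trans ((hT.tri s hs).le 0)
  have hZR : (0 : ℝ) < Z := by exact_mod_cast hZ
  set U : Fin 3 → Finset ℕ := fun j => (Icc 1 Z).filter fun d =>
    (rad d : ℝ) ≤ 2 ^ (K + 1) * (rd K (num s j) univ : ℝ) with hU
  have hmem : ∀ t ∈ T, ∀ j, num t j ∈ U j := by
    intro t ht j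
    simp only [hU, mem_filter, mem_Icc]
    refine ⟨⟨(hT.tri t ht).pos j, (hT.tri t ht).le j⟩, ?_⟩
    rw [← hF.rd_univ K]
    exact_mod_cast hT.rd_le t ht s hs j univ
  have hUc : ∀ j, ((U j).card : ℝ) ≤ D4 * (Z : ℝ) ^ (ε / 2) * (2 ^ (K + 1) * (rd K (num s j) univ : ℝ)) :=
    fun j => h4 Z hZ _ (by positivity)
  have hinj : Set.InjOn (fun t => (num t p, num t q)) (T : Set (ℕ × ℕ × ℕ)) := by
    intro t ht t' ht' htt
    simp only [Prod.mk.injEq] at htt
    exact TrPf.inj3 hT.sgn (hT.tri t ht) (hT.tri t' ht') hpq htt.1 htt.2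
  have h1 : T.card ≤ (U p ×ˢ U q).card := by
    rw [← card_image_of_injOn hinj]
    apply card_le_card
    intro z hz
    obtain ⟨t, ht, rfl⟩ := mem_image.1 hz
    exact mem_product.2 ⟨hmem t ht p, hmem t ht q⟩
  rw [card_product] at h1
  have h2 : (T.card : ℝ) ≤ ((U p).card : ℝ) * (U q).card := by exact_mod_cast h1
  have hZe : (Z : ℝ) ^ ε = (Z : ℝ) ^ (ε / 2) * (Z : ℝ) ^ (ε / 2) := by
    rw [← Real.rpow_add hZR]; congr 1; ring
  calc (T.card : ℝ) ≤ ((U p).card : ℝ) * (U q).card := h2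
    _ ≤ (D4 * (Z : ℝ) ^ (ε / 2) * (2 ^ (K + 1) * (rd K (num s p) univ : ℝ))) *
        (D4 * (Z : ℝ) ^ (ε / 2) * (2 ^ (K + 1) * (rd K (num s q) univ : ℝ))) :=
        mul_le_mul (hUc p) (hUc q) (by positivity) (by positivity)
    _ = _ := by rw [hZe]; ring

end Pool.Agent.W625.NC
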