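import Mathlib
import Pool.Agent.W625.NC.Fin2
import Pool.Agent.W625.NC.TrPf
import Pool.Agent.W625.NC.Est
import Pool.Agent.W625.NC.Dc
import Pool.Agent.W625.NC.Cells
import Pool.Agent.W625.NC.Fin
import Pool.Agent.H705R2.ABC.Pwr
import Pool.Agent.H705R2.ABC.Two
import Pool.Agent.H705R2.ABC.Fac
import Pool.Agent.H705R2.ABC.JJ
import Pool.Agent.H705R2.ABC.Num
import Pool.Agent.H785R2.ABC.D
import Pool.Agent.H785R2.ABC.B
import Pool.Agent.H785R2.ABC.C
import Pool.Agent.H785R2.ABC.A345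
import Pool.Agent.H785R2.ABC.A12
import Pool.Agent.H785R2.ABC.Basics

/-!
# Exceptions to the strong n-conjecture: main theorem (helper625)
-/

set_option autoImplicit false

namespace Pool.Agent.W625.NC

open Pool.Agent.H785R2.ABC Pool.Agent.H705R2.ABC

theorem a4 : StmtA4 := stmtA4_of (stmtA3_of stmtA2)

theorem dd : StmtD := stmtD_of (stmtB_of stmtA1) stmtC

theorem hTr : HTr := hTr_of basics a4

theorem hEst : HEst := hEst_of basics a4 (stmtJ_of (stmtPwr_of (stmtTwo_of dd) stmtFac))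

theorem hDc : HDc := hDc_of basics a4 stmtTau

theorem hCount : HCount := hCount_of basics (hCells_of basics hTr hEst hDc stmtNum)

/-- For `n ≥ 3`, `M ≥ 10/9` the number of exceptions up to `X` is
`O (X ^ ((3 n - 5) / ((3 n - 2) M) + ε))`. -/
theorem strong {n : ℕ} (hn : 3 ≤ n) {M : ℝ} (hM : 10 / 9 ≤ M) :
    ∀ ε : ℝ, 0 < ε → ∃ C : ℝ, 0 < C ∧ ∀ X : ℕ, 1 ≤ X →
      ((ExcSet n M X).ncard : ℝ) ≤
        C * (X : ℝ) ^ ((3 * (n : ℝ) - 5) / ((3 * (n : ℝ) - 2) * M) + ε) :=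
  Opt.count_of_box (by omega) (Opt.box_strong a4 hCount hn hM)

end Pool.Agent.W625.NC
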