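import Mathlib
import Pool.Agent.W625.NC.Fin2

/-!
# Exceptions to the strong n-conjecture: wider range of exponents (helper625)
-/

set_option autoImplicit false

namespace Pool.Agent.W625.NC

open Finset Pool.Agent.H785R2.ABC Pool.Agent.H705R2.ABC

namespace Opt

theorem box_wide (hA4 : StmtA4) (hC : HCount) {n : ℕ} (hn : 3 ≤ n) {M : ℝ} (hM0 : 0 < M)
    (hM : 10 ≤ (3 * (n : ℝ) - 2) * M) :
    BoxBd n M ((3 * (n : ℝ) - 5) / ((3 * (n : ℝ) - 2) * M)) := by
  intro ε hε
  have hn0 : (0 : ℝ) < n := by exact_mod_cast (by omega : 0 < n)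
  have hn3 : (3 : ℝ) ≤ n := by exact_mod_cast hn
  obtain ⟨D, hD, h4⟩ := hA4 (ε / n) (by positivity)
  set e := ε / n with he
  have he0 : 0 < e := by rw [he]; positivity
  obtain ⟨C, hC0, hB⟩ := Box.fibB hC hn he0 h4
  refine ⟨(2 + 8 * (C * 2 ^ e)) * (4 * (D + 1)) ^ n, by positivity, ?_⟩
  intro X hX Z x0 p q σ T hb hx0
  have hXp : (0 : ℝ) < X := by exact_mod_cast hX
  have hX1 : (1 : ℝ) ≤ X := by exact_mod_cast hX
  have hXe : 1 ≤ (X : ℝ) ^ e := Real.one_le_rpow hX1 he0.le
  have hP1 := one_le_PP x0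
  have hP0 : 0 ≤ PP x0 := by linarith
  have hm : 1 ≤ 3 * n - 2 := by omega
  have hmR : ((3 * n - 2 : ℕ) : ℝ) = 3 * (n : ℝ) - 2 := by
    rw [Nat.cast_sub (by omega)]; push_cast; ring
  set u : ℝ := (PP x0) ^ ((1 : ℝ) / ((3 * n - 2 : ℕ) : ℝ)) with hu
  have hu0 : 0 < u := Real.rpow_pos_of_pos (by linarith) _
  have hun : u ^ (3 * n - 2) = PP x0 := root_pow hP0 hm
  set A : ℝ := 4 * (D + 1) * (X : ℝ) ^ e with hAdef
  have hA : 1 ≤ A := by rw [hAdef]; nlinarith
  have hAX : (X : ℝ) ^ e ≤ A := by rw [hAdef]; nlinarith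
  have hAn : A ^ n = (4 * (D + 1)) ^ n * (X : ℝ) ^ ε := by
    rw [hAdef, mul_pow, ← Real.rpow_natCast ((X : ℝ) ^ e), ← Real.rpow_mul hXp.le]
    congr 2
    rw [he]; field_simp
  have hDA : 4 * D * (X : ℝ) ^ e ≤ A := by rw [hAdef]; nlinarith
  have hD0 : 0 ≤ 4 * D * (X : ℝ) ^ e := by positivity
  have hPu0 : 0 ≤ PP x0 / u ^ 3 := by positivity
  have key : (T.card : ℝ) ≤ (2 + 8 * (C * 2 ^ e)) * A ^ n * (PP x0 / u ^ 3) := by
    by_cases hj : ∃ j, u ^ 3 ≤ rho x0 j
    · obtain ⟨j, hj⟩ := hj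
      have h1 := boxA hD h4 hX hb (by positivity) hj
      refine h1.trans ?_
      apply mul_le_mul_of_nonneg_right _ hPu0
      calc (4 * D * (X : ℝ) ^ e) ^ (n - 1) ≤ A ^ (n - 1) := pow_le_pow_left₀ hD0 hDA _
        _ ≤ A ^ n := pow_le_pow_right₀ hA (by omega)
        _ = 1 * A ^ n := (one_mul _).symm
        _ ≤ _ := by
          apply mul_le_mul_of_nonneg_right _ (by positivity)
          have : 0 ≤ 8 * (C * 2 ^ e) := by positivity
          linarith
    · push Not at hj
      obtain ⟨r, hqr, hpr⟩ := exists_third hn p q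
      have hZ1 : (1 : ℝ) ≤ Z := by exact_mod_cast hb.Z1
      have hZp : (0 : ℝ) < Z := by linarith
      by_cases htr : ∀ x ∈ T, rho x r * rho x p * rho x q ≤ (Z : ℝ) ^ ((9 : ℝ) / 10)
      swap
      · push Not at htr
        obtain ⟨x, hxT, hx⟩ := htr
        have hm := hb.mem x hxT
        have g0 : rho x r ≤ 2 * rho x0 r := by unfold rho; exact_mod_cast hm.rad_le r
        have g1 : rho x p ≤ 2 * rho x0 p := by unfold rho; exact_mod_cast hm.rad_le p
        have g2 : rho x q ≤ 2 * rho x0 q := by unfold rho; exact_mod_cast hm.rad_le q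
        have k0 := one_le_rho x r
        have k1 := one_le_rho x p
        have k2 := one_le_rho x q
        set U : ℝ := (Z : ℝ) ^ ((3 : ℝ) / 10) with hU
        have hU0 : 0 < U := Real.rpow_pos_of_pos hZp _
        have hU3 : U ^ 3 = (Z : ℝ) ^ ((9 : ℝ) / 10) := by
          rw [hU, ← Real.rpow_natCast, ← Real.rpow_mul hZp.le]
          norm_num
        have hbig : ∃ j, U / 2 ≤ rho x0 j := by
          by_contra hno
          push Not at hno
          have l0 := hno r
          have l1 := hno p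
          have l2 := hno q
          have m0 : rho x r ≤ U := by linarith
          have m1 : rho x p ≤ U := by linarith
          have m2 : rho x q ≤ U := by linarith
          have : rho x r * rho x p * rho x q ≤ U * U * U := by
            apply mul_le_mul (mul_le_mul m0 m1 (by linarith) hU0.le) m2 (by linarith)
              (by positivity)
          have e3 : U * U * U = U ^ 3 := by ring
          rw [e3, hU3] at this
          linarith
        obtain ⟨j, hj2⟩ := hbig
        have h1 := boxA hD h4 hX hb (by positivity) hj2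
        have huU : u ^ 3 ≤ U := by
          have hPZ : PP x0 ≤ (Z : ℝ) ^ (1 / M) := PP_le hM0 hb hx0 (hb.le x0 hx0)
          have hden : (0 : ℝ) < 3 * (n : ℝ) - 2 := by linarith
          calc u ^ 3 = (PP x0) ^ (3 / (3 * (n : ℝ) - 2)) := by
                rw [hu, ← Real.rpow_natCast, ← Real.rpow_mul hP0, hmR]
                congr 1
                push_cast
                field_simp
            _ ≤ ((Z : ℝ) ^ (1 / M)) ^ (3 / (3 * (n : ℝ) - 2)) :=
                Real.rpow_le_rpow hP0 hPZ (by positivity)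
            _ = (Z : ℝ) ^ (3 / ((3 * (n : ℝ) - 2) * M)) := by
                rw [← Real.rpow_mul hZp.le]
                congr 1
                field_simp
            _ ≤ (Z : ℝ) ^ ((3 : ℝ) / 10) := by
                apply Real.rpow_le_rpow_of_exponent_le hZ1
                exact div_le_div_of_nonneg_left (by norm_num) (by norm_num) hM
        calc (T.card : ℝ) ≤ (4 * D * (X : ℝ) ^ e) ^ (n - 1) * (PP x0 / (U / 2)) := h1
          _ ≤ A ^ n * (2 * (PP x0 / u ^ 3)) := by
              apply mul_le_mul _ _ (by positivity) (by positivity)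
              · calc (4 * D * (X : ℝ) ^ e) ^ (n - 1) ≤ A ^ (n - 1) := pow_le_pow_left₀ hD0 hDA _
                  _ ≤ A ^ n := pow_le_pow_right₀ hA (by omega)
              · have e4 : PP x0 / (U / 2) = 2 * (PP x0 / U) := by
                  field_simp
                rw [e4]
                apply mul_le_mul_of_nonneg_left _ (by norm_num)
                exact div_le_div_of_nonneg_left hP0 (by positivity) huU
          _ = 2 * A ^ n * (PP x0 / u ^ 3) := by ring
          _ ≤ (2 + 8 * (C * 2 ^ e)) * A ^ n * (PP x0 / u ^ 3) := by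
              apply mul_le_mul_of_nonneg_right _ hPu0
              apply mul_le_mul_of_nonneg_right _ (by positivity)
              have : 0 ≤ 8 * (C * 2 ^ e) := by positivity
              linarith
      have h7 := seven hn hu0 hb.pq hqr hpr x0 hun.symm (fun i => (hj i).le)
      have h1 := hB X hX x0 T hb.mem p q r hb.pq hqr hpr σ hb.sgn hb.eq Z hb.Z1 (by
        intro x hx
        refine ⟨hb.le x hx, hb.hp x hx, hb.hq x hx, ?_⟩
        have h9 := htr x hx
        unfold rho at h9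
        push_cast
        exact h9)
      have hS := prod_const_mul (((univ.erase p).erase q).erase r) (4 * D * (X : ℝ) ^ e) x0
      rw [card_erase3 hb.pq hqr hpr] at hS
      have hsp := PP_split hb.pq hqr hpr x0
      set Q3 : ℝ := rho x0 r * rho x0 p * rho x0 q with hQ3
      set W : ℝ := ∏ i ∈ ((univ.erase p).erase q).erase r, rho x0 i with hW
      have hQ1 : 0 < Q3 := lt_of_lt_of_le (by positivity) h7
      have hW0 : 0 ≤ W := prod_nonneg fun i _ => by linarith [one_le_rho x0 i]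
      have hZe : (Z : ℝ) ^ e ≤ 2 ^ e * A := by
        calc (Z : ℝ) ^ e ≤ (2 * (X : ℝ)) ^ e := by
              apply Real.rpow_le_rpow (Nat.cast_nonneg _) _ he0.le
              exact_mod_cast hb.ZX
          _ = 2 ^ e * (X : ℝ) ^ e := Real.mul_rpow (by norm_num) hXp.le
          _ ≤ 2 ^ e * A := by gcongr
      have h10 : (8 * Q3) ^ ((4 : ℝ) / 7) ≤ 8 * (Q3 / u ^ 3) := by
        rw [Real.mul_rpow (by norm_num) hQ1.le]
        have g1 : (8 : ℝ) ^ ((4 : ℝ) / 7) ≤ 8 := by
          calc (8 : ℝ) ^ ((4 : ℝ) / 7) ≤ (8 : ℝ) ^ (1 : ℝ) :=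
                Real.rpow_le_rpow_of_exponent_le (by norm_num) (by norm_num)
            _ = 8 := Real.rpow_one _
        have g2 : Q3 ^ ((4 : ℝ) / 7) ≤ Q3 / u ^ 3 := by
          rw [le_div_iff₀ (by positivity)]
          have g3 : u ^ 3 ≤ Q3 ^ ((3 : ℝ) / 7) := by
            have g4 : u ^ 3 = (u ^ 7) ^ ((3 : ℝ) / 7) := by
              rw [← Real.rpow_natCast, ← Real.rpow_natCast, ← Real.rpow_mul hu0.le]
              norm_num
            rw [g4]
            exact Real.rpow_le_rpow (by positivity) h7 (by norm_num)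
          calc Q3 ^ ((4 : ℝ) / 7) * u ^ 3 ≤ Q3 ^ ((4 : ℝ) / 7) * Q3 ^ ((3 : ℝ) / 7) := by
                gcongr
            _ = Q3 := by
                rw [← Real.rpow_add hQ1]
                norm_num
        exact mul_le_mul g1 g2 (by positivity) (by norm_num)
      have h11 : (∏ i ∈ ((univ.erase p).erase q).erase r,
          (4 * D * (X : ℝ) ^ e * (rad (x0 i).natAbs : ℝ))) ≤ A ^ (n - 3) * W := by
        unfold rho at hS
        rw [hS]
        have g1 : (4 * D * (X : ℝ) ^ e) ^ (n - 3) ≤ A ^ (n - 3) := pow_le_pow_left₀ hD0 hDA _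
        exact mul_le_mul_of_nonneg_right g1 hW0
      have h12 : C * (Z : ℝ) ^ e * (8 * ((rad (x0 r).natAbs : ℝ) * rad (x0 p).natAbs *
          rad (x0 q).natAbs)) ^ ((4 : ℝ) / 7) ≤ C * (2 ^ e * A) * (8 * (Q3 / u ^ 3)) := by
        have g0 : (rad (x0 r).natAbs : ℝ) * rad (x0 p).natAbs * rad (x0 q).natAbs = Q3 := rfl
        rw [g0]
        exact mul_le_mul (mul_le_mul_of_nonneg_left hZe hC0.le) h10 (by positivity) (by positivity)
      have h13 : A ^ (n - 3) * A ≤ A ^ n := by
        rw [← pow_succ]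
        exact pow_le_pow_right₀ hA (by omega)
      calc (T.card : ℝ) ≤ _ := h1
        _ ≤ (A ^ (n - 3) * W) * (C * (2 ^ e * A) * (8 * (Q3 / u ^ 3))) :=
            mul_le_mul h11 h12 (by positivity) (by positivity)
        _ = (8 * (C * 2 ^ e)) * (A ^ (n - 3) * A) * ((Q3 * W) / u ^ 3) := by ring
        _ = (8 * (C * 2 ^ e)) * (A ^ (n - 3) * A) * (PP x0 / u ^ 3) := by rw [← hsp]
        _ ≤ (2 + 8 * (C * 2 ^ e)) * A ^ n * (PP x0 / u ^ 3) := by
            apply mul_le_mul_of_nonneg_right _ hPu0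
            apply mul_le_mul _ h13 (by positivity) (by positivity)
            linarith
  have hPX : PP x0 ≤ (X : ℝ) ^ (1 / M) := PP_le hM0 hb hx0 (hb.mem x0 hx0).le
  have hden : (0 : ℝ) < 3 * (n : ℝ) - 2 := by linarith
  have h3 : PP x0 / u ^ 3 = (PP x0) ^ ((3 * (n : ℝ) - 5) / (3 * (n : ℝ) - 2)) := by
    rw [hu, ← Real.rpow_natCast, ← Real.rpow_mul hP0, hmR]
    nth_rewrite 1 [← Real.rpow_one (PP x0)]
    rw [← Real.rpow_sub (by linarith)]
    congr 1
    push_cast
    field_simp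
    ring
  have h5 : PP x0 / u ^ 3 ≤ (X : ℝ) ^ ((3 * (n : ℝ) - 5) / ((3 * (n : ℝ) - 2) * M)) := by
    rw [h3]
    have h7 : (X : ℝ) ^ ((3 * (n : ℝ) - 5) / ((3 * (n : ℝ) - 2) * M)) =
        ((X : ℝ) ^ (1 / M)) ^ ((3 * (n : ℝ) - 5) / (3 * (n : ℝ) - 2)) := by
      rw [← Real.rpow_mul hXp.le]
      congr 1
      field_simp
    rw [h7]
    apply Real.rpow_le_rpow hP0 hPX
    apply div_nonneg (by linarith) hden.le
  have h6 : (X : ℝ) ^ ((3 * (n : ℝ) - 5) / ((3 * (n : ℝ) - 2) * M) + ε) =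
      (X : ℝ) ^ ε * (X : ℝ) ^ ((3 * (n : ℝ) - 5) / ((3 * (n : ℝ) - 2) * M)) := by
    rw [← Real.rpow_add hXp]; congr 1; ring
  rw [h6]
  calc (T.card : ℝ) ≤ (2 + 8 * (C * 2 ^ e)) * A ^ n * (PP x0 / u ^ 3) := key
    _ ≤ (2 + 8 * (C * 2 ^ e)) * A ^ n *
        (X : ℝ) ^ ((3 * (n : ℝ) - 5) / ((3 * (n : ℝ) - 2) * M)) :=
        mul_le_mul_of_nonneg_left h5 (by positivity)
    _ = _ := by rw [hAn]; ring

end Opt

end Pool.Agent.W625.NC
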