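import Mathlib
import Pool.Agent.W625.NC.Main
import Pool.Agent.W625.NC.Wide

/-!
# Exceptions to the strong n-conjecture: main theorem for a wider range of `M` (helper625)
-/

set_option autoImplicit false

namespace Pool.Agent.W625.NC

open Pool.Agent.H785R2.ABC Pool.Agent.H705R2.ABC

/-- For `n ≥ 4`, `M ≥ 10 / (3 n - 2)` the number of exceptions up to `X` is
`O (X ^ ((3 n - 5) / ((3 n - 2) M) + ε))`. -/
theorem wide {n : ℕ} (hn : 4 ≤ n) {M : ℝ} (hM : 10 / (3 * (n : ℝ) - 2) ≤ M) :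
    ∀ ε : ℝ, 0 < ε → ∃ C : ℝ, 0 < C ∧ ∀ X : ℕ, 1 ≤ X →
      ((ExcSet n M X).ncard : ℝ) ≤
        C * (X : ℝ) ^ ((3 * (n : ℝ) - 5) / ((3 * (n : ℝ) - 2) * M) + ε) := by
  have hn4 : (4 : ℝ) ≤ n := by exact_mod_cast hn
  have hden : (0 : ℝ) < 3 * (n : ℝ) - 2 := by linarith
  have hM0 : 0 < M := lt_of_lt_of_le (by positivity) hM
  have h1 : 10 ≤ (3 * (n : ℝ) - 2) * M := by
    rw [div_le_iff₀ hden] at hM
    linarith
  exact Opt.count_of_box (by omega) (Opt.box_wide a4 hCount (by omega) hM0 h1)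

end Pool.Agent.W625.NC
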